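import Mathlib.Logic.Basic

/-! A certificate checker for walks on the representations of a number by three squares. -/

namespace Pool.Agent.Lib.MP_01eced_nt

structure Row where
  (b β r1 r2 r3 : Nat)

structure St where
  (eta : Bool)
  (rk succ w : Nat)
  (H : List Nat)
  (e1 e2 e3 a1 a2 a3 : Int)
  (wx wy wz : Nat)

structure Tab where
  (p : Nat)
  (fl : Bool)
  (B trW trB inv : Nat)
  (S : List St)

abbrev KT := Bool → Nat → Row → List Row → List Row → Nat → List Nat → List Nat → Nat → Nat → Bool

noncomputable section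

def MO : Nat := nat_lit 0x100000000000000000000000000000000000000000000000000000000000000000000000000000000000000000000000000000000000000000000000000000000
def M1 : Nat := nat_lit 0xffffffffffffffffffffffffffffffffffffffffffffffffffffffffffffffffffffffffffffffffffffffffffffffffffffffffffffffffffffffffffffffff
def TT : Nat := nat_lit 0x200000000000000000000000000000000000000000000000000000000000000000000000000000000000000000000000000000000000000000000000000000000
def M3 : Nat := nat_lit 0x8000000000000000000000000000000000000000000000000000000000000000000000000000000000000000000000000000000000000000000000000000000000000000000000000000000000000000000000000000000000000000000000000000000000000000000000000000000000000000000000000000000000000000000000000000000000000000000000000000000000000000000000000000000000000000000000000000000000000000000000000000000000000000000000000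
def M2 : Nat := nat_lit 0x7fffffffffffffffffffffffffffffffffffffffffffffffffffffffffffffffffffffffffffffffffffffffffffffffffffffffffffffffffffffffffffffffffffffffffffffffffffffffffffffffffffffffffffffffffffffffffffffffffffffffffffffffffffffffffffffffffffffffffffffffffffffffffffffffffffffffffffffffffffffffffffffffffffffffffffffffffffffffffffffffffffffffffffffffffffffffffffffffffffffffffffffffffffffffffffffffe
def M7 : Nat := nat_lit 0x7ffffffffffffffffffffffffffffffffffffffffffffffffffffffffffffffffffffffffffffffffffffffffffffffffffffffffffffffffffffffffffffffffffffffffffffffffffffffffffffffffffffffffffffffffffffffffffffffffffffffffffffffffffffffffffffffffffffffffffffffffffffffffffffffffffffffffffffffffffffffffffffffffffffffffffffffffffffffffffffffffffffffffffffffffffffffffffffffffffffffffffffffffffffffffffffff80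
def OF : Nat := nat_lit 0x4000000000000000000000000000000000000000000000000000000000000000000000000000000000000000000000000000000000000000000000000000000020000000000000000000000000000000000000000000000000000000000000000000000000000000000000000000000000000000000000000000000000000000100000000000000000000000000000000000000000000000000000000000000000000000000000000000000000000000000000000000000000000000000000000
def O2 : Nat := nat_lit 0x8000000000000000000000000000000000000000000000000000000000000000000000000000000000000000000000000000000000000000000000000000000040000000000000000000000000000000000000000000000000000000000000000000000000000000000000000000000000000000000000000000000000000000200000000000000000000000000000000000000000000000000000000000000000000000000000000000000000000000000000000000000000000000000000000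
def HF : Nat := nat_lit 0x40000000000000000000000000000000000000000000000000000000000000000000000000000000000000000000000000000000000000000000000000000000
def BM : Nat := nat_lit 0x1000000000000000000000000000000000000000000
def CT : Nat := nat_lit 333219838329388606237189224282278544751293482494467323609039555974704016895063196307182051089132917855483184044877213262037539384869933377703880690433175317180997180941865695755756806889730836051

def forceN (b : Bool) (f : Bool → Bool) : Bool := Bool.rec (motive := fun _ => Bool) (f true) (f false) b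

def an (a b : Bool) : Bool := Bool.rec (motive := fun _ => Bool) false b a

def oo (a b : Bool) : Bool := Bool.rec (motive := fun _ => Bool) b true a

def fld (x s m : Nat) : Nat := Nat.land (Nat.shiftRight x s) m

def sm (f g h a b c : Nat) : Nat := Nat.add (Nat.add (Nat.mul f a) (Nat.mul g b)) (Nat.mul h c)

def leaf4 (a1 a2 a3 b1 b2 b3 c1 c2 c3 d1 d2 d3 : Nat) : Bool :=
  (fun f1 f2 f3 e1 e2 e3 : Nat =>
    Bool.rec (motive := fun _ => Bool) false (Bool.rec (motive := fun _ => Bool) false (Bool.rec (motive := fun _ => Bool) false (Nat.ble (Nat.mod (Nat.mul M1 (Nat.add (Nat.add (Nat.mul c1 e1) (Nat.mul c2 e2)) (Nat.mul c3 e3))) MO) HF) (Nat.ble (Nat.mod (Nat.add (Nat.add (Nat.mul d1 e1) (Nat.mul d2 e2)) (Nat.mul d3 e3)) MO) HF)) (Nat.ble (Nat.mod (Nat.mul M1 (Nat.add (Nat.add (Nat.mul a1 f1) (Nat.mul a2 f2)) (Nat.mul a3 f3))) MO) HF)) (Nat.ble (Nat.mod (Nat.add M1 (Nat.add (Nat.add (Nat.mul b1 f1) (Nat.mul b2 f2)) (Nat.mul b3 f3))) MO) HF))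
    (Nat.mod (Nat.add (Nat.mul c2 d3) (Nat.mul M1 (Nat.mul c3 d2))) MO)
    (Nat.mod (Nat.add (Nat.mul c3 d1) (Nat.mul M1 (Nat.mul c1 d3))) MO)
    (Nat.mod (Nat.add (Nat.mul c1 d2) (Nat.mul M1 (Nat.mul c2 d1))) MO)
    (Nat.mod (Nat.add (Nat.mul a2 b3) (Nat.mul M1 (Nat.mul a3 b2))) MO)
    (Nat.mod (Nat.add (Nat.mul a3 b1) (Nat.mul M1 (Nat.mul a1 b3))) MO)
    (Nat.mod (Nat.add (Nat.mul a1 b2) (Nat.mul M1 (Nat.mul a2 b1))) MO)

def getC (cs i : Nat) (k : Nat → Nat → Nat → Bool) : Bool :=
  (fun y : Nat => Bool.rec (motive := fun _ => Bool) false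
    (k (Nat.land y M1) (Nat.land (Nat.shiftRight y (nat_lit 513)) M1)
      (Nat.land (Nat.shiftRight y (nat_lit 1026)) M1)) (Nat.ble (nat_lit 1) y))
  (Nat.shiftRight cs (Nat.mul (nat_lit 1539) i))

def getL {α : Type} (l : List α) (k : α → Bool) : Nat → Bool :=
  List.rec (motive := fun _ => Nat → Bool) (fun _ => false)
    (fun a _ ih n => Nat.rec (motive := fun _ => Bool) (k a) (fun m _ => ih m) n) l

def nLeaf (cs x : Nat) : Bool :=
  getC cs (Nat.land x (nat_lit 63)) fun a1 a2 a3 =>
  getC cs (Nat.land (Nat.shiftRight x (nat_lit 6)) (nat_lit 63)) fun b1 b2 b3 =>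
  getC cs (Nat.land (Nat.shiftRight x (nat_lit 12)) (nat_lit 63)) fun c1 c2 c3 =>
  getC cs (Nat.shiftRight x (nat_lit 18)) fun d1 d2 d3 => leaf4 a1 a2 a3 b1 b2 b3 c1 c2 c3 d1 d2 d3

def split (x : Nat) (k : Nat → Nat → Bool) : Bool :=
  (fun wd x1 : Nat => (fun len x2 : Nat =>
    k (Nat.land x2 (Nat.sub (Nat.shiftLeft (nat_lit 1) len) (nat_lit 1))) (Nat.shiftRight x2 len))
    (Nat.land x1 (Nat.sub (Nat.shiftLeft (nat_lit 1) wd) (nat_lit 1))) (Nat.shiftRight x1 wd))
  (Nat.land x (nat_lit 31)) (Nat.shiftRight x (nat_lit 5))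

def tw (T : Tab) (b w : Nat) : Nat :=
  fld T.trW (Nat.mul (nat_lit 2) (Nat.add (Nat.mul (nat_lit 4) b) w)) (nat_lit 3)

def tb (T : Tab) (b w : Nat) : Nat :=
  fld T.trB (Nat.mul (nat_lit 6) (Nat.add (Nat.mul (nat_lit 4) b) w)) (nat_lit 63)

def ti (T : Tab) (b : Nat) : Nat := fld T.inv (Nat.mul (nat_lit 6) b) (nat_lit 63)

def wt (T : Tab) (w : Nat) (l : List Row) : Nat :=
  List.rec (motive := fun _ => Nat) w (fun r _ ih => tw T r.b ih) l

def et (T : Tab) (η : Bool) (l : List Row) : Bool :=
  List.rec (motive := fun _ => Bool) η (fun _ _ ih => xor T.fl ih) l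

def tl (l : List Row) : List Row := List.rec (motive := fun _ => List Row) [] (fun _ t _ => t) l

def dropL (l : List Row) (j : Nat) : List Row :=
  Nat.rec (motive := fun _ => List Row) l (fun _ ih => tl ih) j

def top (m : Row) (l : List Row) : Row := List.rec (motive := fun _ => Row) m (fun r _ _ => r) l

def lastb (l : List Row) : Nat :=
  List.rec (motive := fun _ => Nat) (nat_lit 0)
    (fun r t ih => List.rec (motive := fun _ => Nat) r.b (fun _ _ _ => ih) t) l

def mkc (w a b : Nat) : Nat :=
  Bool.rec (motive := fun _ => Nat)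
    (Nat.add w (Nat.mul (nat_lit 4) (Nat.add b (Nat.mul (nat_lit 64) a))))
    (Nat.add w (Nat.mul (nat_lit 4) (Nat.add a (Nat.mul (nat_lit 64) b)))) (Nat.ble a b)

def c2 (y s : Nat) : Nat := Nat.add M2 (Nat.land (Nat.shiftRight y s) (nat_lit 7))

def c7 (y s : Nat) : Nat := Nat.add M7 (Nat.land (Nat.shiftRight y s) (nat_lit 255))

def stepRow (w b : Nat) (r : Row) : Row :=
  Row.rec (motive := fun _ => Row) (fun _ β r1 r2 r3 => (fun y : Nat => (fun f g h : Nat =>
    (⟨b, Nat.mul (nat_lit 5) β, Nat.mod (Nat.add (Nat.add r1 (Nat.mul f r2)) (Nat.mul g r3)) M3,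
      Nat.mod (Nat.add (Nat.add (Nat.mul f r1) r2) (Nat.mul h r3)) M3,
      Nat.mod (Nat.add (Nat.add (Nat.mul g r1) (Nat.mul h r2)) r3) M3⟩ : Row))
    (c2 y (nat_lit 0)) (c2 y (nat_lit 3)) (c2 y (nat_lit 6)))
    (Nat.shiftRight CT (Nat.mul (nat_lit 18) (Nat.add (nat_lit 32) w)))) r

def addRow (T : Tab) (b : Nat) (r : Row) : Row :=
  Row.rec (motive := fun _ => Row) (fun _ β r1 r2 r3 => (fun y : Nat =>
    (⟨b, Nat.mul (nat_lit 384) β,
      Nat.mod (sm (c7 y (nat_lit 0)) (c7 y (nat_lit 8)) (c7 y (nat_lit 16)) r1 r2 r3) M3,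
      Nat.mod (sm (c7 y (nat_lit 24)) (c7 y (nat_lit 32)) (c7 y (nat_lit 40)) r1 r2 r3) M3,
      Nat.mod (sm (c7 y (nat_lit 48)) (c7 y (nat_lit 56)) (c7 y (nat_lit 64)) r1 r2 r3) M3⟩ : Row))
    (Nat.shiftRight T.B (Nat.mul (nat_lit 72) b))) r

def advC (T : Tab) (w : Nat) (l : List Row) : List Row :=
  List.rec (motive := fun _ => List Row) []
    (fun r t ih => stepRow (tw T r.b (wt T w t)) (tb T r.b (wt T w t)) r :: ih) l

def side (h : Nat) (U D : List Row) : List Row :=
  Bool.rec (motive := fun _ => List Row) D U (Nat.beq (Nat.land h (nat_lit 1)) (nat_lit 0))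

def cix (η : Bool) (w o : Nat) : Nat :=
  Nat.mul (nat_lit 18) (Nat.add (Bool.rec (motive := fun _ => Nat) (nat_lit 0) (nat_lit 1) η)
    (Nat.mul (nat_lit 2) (Nat.add w (Nat.mul (nat_lit 4) o))))

def nrm (y s r1 r2 r3 : Nat) : Nat :=
  Nat.mod (Nat.add (sm (c2 y s) (c2 y (Nat.add s (nat_lit 3))) (c2 y (Nat.add s (nat_lit 6))) r1 r2 r3) OF) M3

def push (cs v : Nat) : Nat := Nat.add (Nat.shiftLeft cs (nat_lit 1539)) v

def brAt (y : Nat) (r : Row) (x : Nat) (k : Nat → Nat → Bool) (cs : Nat) : Bool :=
  Row.rec (motive := fun _ => Bool) (fun _ β r1 r2 r3 => (fun F : Nat =>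
    Bool.rec (motive := fun _ => Bool) false (split x fun x1 x2 =>
      Bool.rec (motive := fun _ => Bool) false
        (k (push (push cs (Nat.sub O2 F)) (nrm y (nat_lit 9) r1 r2 r3)) x2) (k (push cs F) x1))
      (Nat.ble (Nat.mul (nat_lit 15) β) BM)) (nrm y (nat_lit 0) r1 r2 r3)) r

def nBr (T : Tab) (K : KT) : KT := fun η w m U D cs hs fw ex x =>
  (fun h : Nat => (fun l : List Row =>
    brAt (Nat.shiftRight CT (cix (et T η l) (wt T w l) (fld h (nat_lit 4) (nat_lit 3)))) (top m l)
      (Nat.shiftRight x (nat_lit 6)) (fun cs' y => K η w m U D cs' hs fw ex y) cs)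
  (dropL (side h U D) (fld h (nat_lit 1) (nat_lit 7)))) (Nat.land x (nat_lit 63))

def nx (w j ex : Nat) (k : Nat → Bool) : Bool :=
  (fun w' : Nat => oo (Nat.beq w' ex) (k w')) (Nat.land (Nat.add w j) (nat_lit 3))

def nAdv (T : Tab) (K : KT) : KT := fun η w m U D cs hs fw ex x =>
  forceN η fun η' => (fun (m' : Row) (U' D' : List Row) (hs' : List Nat) =>
  List.rec (motive := fun _ => Bool)
    (split x fun x1 y => split y fun x2 x3 =>
      an (nx w (nat_lit 1) ex fun v => K η' v m' U' D' cs hs' [] (nat_lit 4) x1)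
      (an (nx w (nat_lit 2) ex fun v => K η' v m' U' D' cs hs' [] (nat_lit 4) x2)
        (nx w (nat_lit 3) ex fun v => K η' v m' U' D' cs hs' [] (nat_lit 4) x3)))
    (fun v fw' _ => K η' v m' U' D' cs hs' fw' ex x) fw)
  (stepRow w (nat_lit 0) m) (advC T w U) (advC T w D) (mkc w (lastb U) (lastb D) :: hs)

def loop (f : Nat → Nat → Bool) (n : Nat) : Nat → Bool :=
  Nat.rec (motive := fun _ => Nat → Bool) (fun _ => true)
    (fun i ih x => split x fun c r => an (f i c) (ih r)) n

def grow (T : Tab) (l : List Row) (x : Nat) (k : List Row → Nat → Bool) : Bool :=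
  List.rec (motive := fun _ => Bool) false (fun r t _ =>
    loop (fun i c => oo (Nat.beq i (ti T r.b)) (k (addRow T i r :: r :: t) c))
      (Nat.succ T.p) x) l

def nRow (T : Tab) (K : KT) : KT := fun η w m U D cs hs fw ex x =>
  Bool.rec (motive := fun _ => Bool)
    (grow T D (Nat.shiftRight x (nat_lit 1)) fun D' y => K η w m U D' cs hs fw ex y)
    (grow T U (Nat.shiftRight x (nat_lit 1)) fun U' y => K η w m U' D cs hs fw ex y)
    (Nat.beq (Nat.land x (nat_lit 1)) (nat_lit 0))

def isPre (a : List Nat) : List Nat → Bool :=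
  List.rec (motive := fun _ => List Nat → Bool) (fun _ => true)
    (fun c _ ih b => List.rec (motive := fun _ => Bool) false (fun d t _ => an (Nat.beq c d) (ih t)) b) a

def nHit (T : Tab) (rk : Nat) : KT := fun η w _ U D _ hs _ _ x =>
  getL T.S (fun s => an (Nat.blt s.rk rk) (an (xor s.eta η)
    (isPre s.H (mkc w (lastb U) (lastb D) :: hs)))) x

def chk (T : Tab) (rk n : Nat) : KT :=
  Nat.rec (motive := fun _ => KT) (fun _ _ _ _ _ _ _ _ _ _ => false)
    (fun _ K η w m U D cs hs fw ex x => (fun y : Nat =>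
      Nat.rec (motive := fun _ => Bool) (nLeaf cs y) (fun t _ =>
      Nat.rec (motive := fun _ => Bool) (nBr T K η w m U D cs hs fw ex y) (fun t _ =>
      Nat.rec (motive := fun _ => Bool) (nAdv T K η w m U D cs hs fw ex y) (fun t _ =>
      Nat.rec (motive := fun _ => Bool) (nRow T K η w m U D cs hs fw ex y) (fun _ _ =>
        nHit T rk η w m U D cs hs fw ex y) t) t) t) (Nat.land x (nat_lit 7)))
      (Nat.shiftRight x (nat_lit 3))) n

def idR : Row := ⟨nat_lit 0, nat_lit 1, nat_lit 1, TT, Nat.mul TT TT⟩

def start (T : Tab) (rk : Nat) (η : Bool) (w a b : Nat) (fw : List Nat) (ex x : Nat) : Bool :=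
  chk T rk (nat_lit 100) η w idR [addRow T a idR] [addRow T b idR] (nat_lit 0) [] fw ex x

def back (T : Tab) (rk ex x : Nat) (H : List Nat) : Nat → List Nat → Bool → Bool :=
  List.rec (motive := fun _ => Nat → List Nat → Bool → Bool) (fun _ _ _ => false)
    (fun c _ ih k u η => forceN η fun η' =>
      Nat.rec (motive := fun _ => Bool)
        (start T rk η' (Nat.mod c (nat_lit 4)) (Nat.mod (Nat.div c (nat_lit 4)) (nat_lit 64))
          (Nat.div c (nat_lit 256)) u ex x)
        (fun j _ => ih j (Nat.mod c (nat_lit 4) :: u) η') k) H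

def jobX (T : Tab) (i x : Nat) : Bool :=
  getL T.S (fun s => back T s.rk s.w (Nat.shiftRight x (nat_lit 5)) s.H
    (Nat.sub (Nat.land x (nat_lit 31)) (nat_lit 1)) [] s.eta) i

def jobG (T : Tab) (i x : Nat) : Bool :=
  (fun g a b : Nat => oo (Nat.ble b a) (Bool.rec (motive := fun _ => Bool)
    (Bool.rec (motive := fun _ => Bool)
      (start T (nat_lit 1000) true (nat_lit 3) a b [2, 3, 2, 3, 2] (nat_lit 4) x)
      (start T (nat_lit 1000) true (nat_lit 2) a b [3, 2, 3, 2, 3] (nat_lit 4) x)
      (Nat.beq g (nat_lit 1)))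
    (start T (nat_lit 1000) true (nat_lit 0) a b [] (nat_lit 4) x) (Nat.beq g (nat_lit 0))))
  (Nat.mod i (nat_lit 3)) (Nat.mod (Nat.div i (nat_lit 3)) (Nat.succ T.p))
  (Nat.div (Nat.div i (nat_lit 3)) (Nat.succ T.p))

def join (l : List Nat) : Nat :=
  List.rec (motive := fun _ => Nat) (nat_lit 0)
    (fun c _ ih => Nat.add c (Nat.shiftLeft ih (nat_lit 8192))) l

def range (f : Nat → Nat → Bool) (a n : Nat) (l : List Nat) : Bool :=
  loop (fun i c => f (Nat.add a i) c) n (join l)

end

end Pool.Agent.Lib.MP_01eced_nt
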