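import Pool.Agent.Lib.MP_01eced_nt.Sq

/-! The walk on the representations of `12 n + 2` by three squares. -/

namespace Pool.Agent.Lib.MP_01eced_nt

abbrev V := ℤ × ℤ × ℤ

abbrev M := V × V × V

def dot (a b : V) : ℤ := a.1 * b.1 + a.2.1 * b.2.1 + a.2.2 * b.2.2

def sc (c : ℤ) (v : V) : V := (c * v.1, c * v.2.1, c * v.2.2)

def ap (m : M) (v : V) : V := (dot m.1 v, dot m.2.1 v, dot m.2.2 v)

def cr (a b : V) : V :=
  (a.2.1 * b.2.2 - a.2.2 * b.2.1, a.2.2 * b.1 - a.1 * b.2.2, a.1 * b.2.1 - a.2.1 * b.1)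

def sg (b : Bool) : ℤ := if b = true then 1 else -1

def ss (w : ℕ) : ℤ := if w < 2 then 1 else -1

def tt (w : ℕ) : ℤ := if w % 2 = 0 then 1 else -1

def wv (w : ℕ) : V := (1, ss w, tt w)

def Sm (w : ℕ) : M :=
  ((1, -2 * ss w, -2 * tt w), (-2 * ss w, 1, -2 * (ss w * tt w)), (-2 * tt w, -2 * (ss w * tt w), 1))

def mv (w : ℕ) (y : V) : V :=
  (y.1 - 2 * (dot y (wv w) / 3), y.2.1 - 2 * (dot y (wv w) / 3) * ss w,
    y.2.2 - 2 * (dot y (wv w) / 3) * tt w)

def Val (y : V) (w : ℕ) (η : Bool) : Prop :=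
  w < 4 ∧ (y.2.1 - ss w * y.1 + sg η * tt w) % 3 = 0 ∧ (y.2.2 - tt w * y.1 - sg η * ss w) % 3 = 0

def Cg (v : V) : Prop := v.2.2 % 2 = 0 ∧ (v.1 - 1 - v.2.2) % 4 = 0 ∧ (v.2.1 - 1 - v.2.2) % 4 = 0

def A (n : ℤ) (v : V) : Prop := dot v v = 12 * n + 2 ∧ Cg v

def Q (y : V) : Prop := ∃ (a : V) (k : ℕ), dot a y = 3 ^ k

def Bad (n : ℤ) : Prop :=
  ∀ x y z : ℤ, 0 ≤ y → 0 ≤ z → 2 * n ≠ 2 * x ^ 2 + (3 * y ^ 2 - y) + 2 * (2 * z ^ 2 - z)

instance (y : V) (w : ℕ) (η : Bool) : Decidable (Val y w η) := by unfold Val; infer_instance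

instance (y : V) : Decidable (Cg y) := by unfold Cg; infer_instance

lemma ss_c (w : ℕ) : ss w = 1 ∨ ss w = -1 := by unfold ss; split_ifs <;> simp

lemma tt_c (w : ℕ) : tt w = 1 ∨ tt w = -1 := by unfold tt; split_ifs <;> simp

lemma sg_c (b : Bool) : sg b = 1 ∨ sg b = -1 := by unfold sg; split_ifs <;> simp

lemma sg_not (b : Bool) : sg (!b) = -sg b := by cases b <;> simp [sg]

lemma Val.dv {y : V} {w : ℕ} {η : Bool} (h : Val y w η) : ∃ k, dot y (wv w) = 3 * k := by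
  obtain ⟨-, h1, h2⟩ := h
  refine ⟨dot y (wv w) / 3, ?_⟩
  simp only [dot, wv]
  rcases ss_c w with s | s <;> rcases tt_c w with t | t <;> rcases sg_c η with e | e <;>
    simp only [s, t, e] at * <;> omega

lemma mv_eq {y : V} {w : ℕ} {k : ℤ} (h : dot y (wv w) = 3 * k) :
    mv w y = (y.1 - 2 * k, y.2.1 - 2 * k * ss w, y.2.2 - 2 * k * tt w) := by
  rw [mv, h, Int.mul_ediv_cancel_left k (by norm_num)]

lemma Val.mv3 {y : V} {w : ℕ} {η : Bool} (h : Val y w η) : ap (Sm w) y = sc 3 (mv w y) := by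
  obtain ⟨k, hk⟩ := h.dv
  rw [mv_eq hk]
  simp only [dot, wv, ap, Sm, sc, Prod.mk.injEq] at *
  rcases ss_c w with s | s <;> rcases tt_c w with t | t <;> simp only [s, t] at * <;> omega

lemma Val.back {y : V} {w : ℕ} {η : Bool} (h : Val y w η) : Val (mv w y) w η := by
  obtain ⟨k, hk⟩ := h.dv
  rw [mv_eq hk]
  obtain ⟨h0, h1, h2⟩ := h
  refine ⟨h0, ?_⟩
  rcases ss_c w with s | s <;> rcases tt_c w with t | t <;> rcases sg_c η with e | e <;>
    simp only [s, t, e] at * <;> omega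

lemma Val.ne {y : V} {w v : ℕ} {η : Bool} (h : Val y w η) (g : Val y v (!η)) : v ≠ w := by
  rintro rfl
  obtain ⟨-, h1, -⟩ := h
  obtain ⟨-, h2, -⟩ := g
  rw [sg_not] at h2
  rcases tt_c v with t | t <;> rcases sg_c η with e | e <;> simp only [t, e] at * <;> omega

lemma A.step {n : ℤ} {y : V} {w : ℕ} {η : Bool} (a : A n y) (h : Val y w η) : A n (mv w y) := by
  obtain ⟨k, hk⟩ := h.dv
  rw [mv_eq hk]
  obtain ⟨a0, a1, a2, a3⟩ := a
  simp only [A, Cg, dot, wv] at *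
  rcases ss_c w with s | s <;> rcases tt_c w with t | t <;> simp only [s, t] at * <;>
    exact ⟨by linear_combination a0 - 4 * k * hk, by omega⟩

lemma Q.step {y : V} {w : ℕ} {η : Bool} (q : Q y) (h : Val y w η) : Q (mv w y) := by
  obtain ⟨a, j, ha⟩ := q
  obtain ⟨k, hk⟩ := h.dv
  refine ⟨ap (Sm w) a, j + 1, ?_⟩
  rw [mv_eq hk, pow_succ, ← ha]
  simp only [dot, wv, ap, Sm] at *
  rcases ss_c w with s | s <;> rcases tt_c w with t | t <;> simp only [s, t] at *
  · linear_combination (-2 * (a.1 + a.2.1 + a.2.2)) * hk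
  · linear_combination (-2 * (a.1 + a.2.1 - a.2.2)) * hk
  · linear_combination (-2 * (a.1 - a.2.1 + a.2.2)) * hk
  · linear_combination (-2 * (a.1 - a.2.1 - a.2.2)) * hk

lemma sq3 (x : ℤ) : x % 3 = 0 ∧ x * x % 3 = 0 ∨ x % 3 = 1 ∧ x * x % 3 = 1 ∨
    x % 3 = 2 ∧ x * x % 3 = 1 := by
  have : x % 3 = 0 ∨ x % 3 = 1 ∨ x % 3 = 2 := by omega
  rcases this with h | h | h <;> simp [h, Int.mul_emod]

lemma A.ex {n : ℤ} {y : V} (a : A n y) (η : Bool) : ∃ w, Val y w η := by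
  have h := a.1
  have h1 := sq3 y.1
  have h2 := sq3 y.2.1
  have h3 := sq3 y.2.2
  have : Val y 0 η ∨ Val y 1 η ∨ Val y 2 η ∨ Val y 3 η := by
    simp only [dot] at h
    generalize y.1 * y.1 = a1 at *
    generalize y.2.1 * y.2.1 = a2 at *
    generalize y.2.2 * y.2.2 = a3 at *
    cases η <;> simp [Val, ss, tt, sg] <;> omega
  rcases this with h | h | h | h <;> exact ⟨_, h⟩

lemma Bad.rep {n : ℤ} (hb : Bad n) (a c d : ℤ) (ha : a % 6 = 1) (hc : c % 12 = 3) (hd : d % 6 = 0)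
    (h : 6 * (12 * n + 2) = 3 * a ^ 2 + c ^ 2 + 2 * d ^ 2) : a ≠ 0 ∧ c ≠ 0 ∧ (0 < a ∨ 0 < c) := by
  refine ⟨by omega, by omega, ?_⟩
  by_contra hn
  obtain ⟨y, rfl⟩ : ∃ y, a = 1 - 6 * y := ⟨(1 - a) / 6, by omega⟩
  obtain ⟨z, rfl⟩ : ∃ z, c = 3 - 12 * z := ⟨(3 - c) / 12, by omega⟩
  obtain ⟨x, rfl⟩ : ∃ x, d = 6 * x := ⟨d / 6, by omega⟩
  refine hb x y z (by omega) (by omega) ?_
  have : 36 * (2 * n) = 36 * (2 * x ^ 2 + (3 * y ^ 2 - y) + 2 * (2 * z ^ 2 - z)) := by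
    linear_combination h
  linarith

def fa (η : Bool) (w o : ℕ) : V :=
  if o % 2 = 0 then (-(sg η * ss w * tt w), 0, sg η * ss w) else (0, sg η * tt w, -(sg η * ss w))

def fc (w o : ℕ) : V :=
  if o % 2 = 0 then (1, -2 * ss w, tt w) else (-2 * ss w, 1, ss w * tt w)

lemma Bad.clause {n : ℤ} (hb : Bad n) {y : V} {w : ℕ} {η : Bool} (a : A n y) (h : Val y w η)
    (o : ℕ) : dot (fa η w o) y ≠ 0 ∧ dot (fc w o) y ≠ 0 ∧
      (0 < dot (fa η w o) y ∨ 0 < dot (fc w o) y) := by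
  obtain ⟨-, h1, h2⟩ := h
  obtain ⟨a0, a1, a2, a3⟩ := a
  unfold fa fc
  split_ifs <;> apply hb.rep _ _ (dot (wv w) y) <;> simp only [dot, wv] at * <;>
    rcases ss_c w with s | s <;> rcases tt_c w with t | t <;> rcases sg_c η with e | e <;>
    simp only [s, t, e] at * <;> first | omega | linear_combination (-6) * a0

lemma cr_step {w : ℕ} {y y' e e' : V} (h : ap (Sm w) y = sc 3 y') (g : ap (Sm w) e = sc 3 e') :
    ap (Sm w) (cr y e) = sc (-3) (cr y' e') := by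
  have k : sc 3 (ap (Sm w) (cr y e)) = sc (-1) (cr (ap (Sm w) y) (ap (Sm w) e)) := by
    simp only [dot, ap, Sm, sc, cr, Prod.mk.injEq]
    rcases ss_c w with s | s <;> rcases tt_c w with t | t <;> simp only [s, t] <;>
      refine ⟨by ring, by ring, by ring⟩
  rw [h, g] at k
  generalize ap (Sm w) (cr y e) = u at *
  simp only [sc, cr, Prod.ext_iff] at *
  obtain ⟨k1, k2, k3⟩ := k
  refine ⟨?_, ?_, ?_⟩ <;> linarith

section Cyc

variable {I : V → V → ℕ → Prop}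
  (hI : ∀ y e w, I y e w → ∃ η e' w', Val y w η ∧ ap (Sm w) e = sc 3 e' ∧
    Val (mv w y) w' (!η) ∧ I (mv w y) e' w')

include hI

lemma cycB (j : ℕ) : ∀ y e w c, I y e w → cr y e = sc (3 ^ j) c → dot c (wv w) % 3 = 0 := by
  induction j with
  | zero =>
    intro y e w c h hc
    obtain ⟨η, e', w', v, he, -, -⟩ := hI y e w h
    have := cr_step v.mv3 he
    rw [hc] at this
    generalize cr (mv w y) e' = u at *
    simp only [dot, ap, Sm, sc, wv, Prod.ext_iff, pow_zero] at *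
    rcases ss_c w with s | s <;> rcases tt_c w with t | t <;> simp only [s, t] at * <;> omega
  | succ j ih =>
    intro y e w c h hc
    obtain ⟨η, e', w', v, he, v', h'⟩ := hI y e w h
    have k := cr_step v.mv3 he
    have k2 : cr (mv w y) e' = sc (3 ^ j) (sc (-1) (ap (Sm w) c)) := by
      rw [hc] at k
      generalize cr (mv w y) e' = u at *
      simp only [dot, ap, Sm, sc, Prod.ext_iff, pow_succ] at *
      obtain ⟨k1, k2, k3⟩ := k
      refine ⟨?_, ?_, ?_⟩ <;> linarith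
    have k3 := ih _ _ _ _ h' k2
    have hne := v.back.ne v'
    have l1 := v.1
    have l2 := v'.1
    clear k k2 hc h h' v v' he ih hI
    simp only [dot, ap, Sm, sc, wv] at *
    interval_cases w <;> interval_cases w' <;> simp [ss, tt] at * <;> omega

lemma cycD (j : ℕ) : ∀ y e w, I y e w → ∃ y' e' w' c, I y' e' w' ∧ cr y' e' = sc (3 ^ j) c ∧
    dot (cr y' e') (cr y' e') = dot (cr y e) (cr y e) := by
  induction j with
  | zero => exact fun y e w h => ⟨y, e, w, cr y e, h, by simp [sc], rfl⟩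
  | succ j ih =>
    intro y0 e0 w0 h0
    obtain ⟨y, e, w, c, h, hc, hn⟩ := ih y0 e0 w0 h0
    obtain ⟨η, e', w', v, he, v', h'⟩ := hI y e w h
    have k := cr_step v.mv3 he
    obtain ⟨m, hm⟩ : ∃ m, dot c (wv w) = 3 * m :=
      ⟨dot c (wv w) / 3, by have := cycB hI j _ _ _ _ h hc; omega⟩
    obtain ⟨d, hd, hdw⟩ : ∃ d, cr (mv w y) e' = sc (3 ^ j) d ∧ dot d (wv w) % 3 = 0 := by
      refine ⟨(2 * m - c.1, 2 * m * ss w - c.2.1, 2 * m * tt w - c.2.2), ?_, ?_⟩
      · rw [hc] at k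
        generalize cr (mv w y) e' = u at *
        generalize (3 : ℤ) ^ j = P at *
        simp only [dot, ap, Sm, sc, wv, Prod.ext_iff] at *
        obtain ⟨k1, k2, k3⟩ := k
        have hm' := congrArg (P * ·) hm
        rcases ss_c w with s | s <;> rcases tt_c w with t | t <;> simp only [s, t] at * <;>
          refine ⟨?_, ?_, ?_⟩ <;> linarith
      · simp only [dot, wv] at *
        rcases ss_c w with s | s <;> rcases tt_c w with t | t <;> simp only [s, t] at * <;> omega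
    have hdw' := cycB hI j _ _ _ _ h' hd
    have ho : dot d (mv w y) = 0 := by
      have : 3 ^ j * dot d (mv w y) = dot (cr (mv w y) e') (mv w y) := by
        rw [hd]; simp only [dot, sc]; ring
      have h2 : dot (cr (mv w y) e') (mv w y) = 0 := by simp only [dot, cr]; ring
      rw [h2] at this
      simpa using this
    refine ⟨_, e', w', (d.1 / 3, d.2.1 / 3, d.2.2 / 3), h', ?_, ?_⟩
    · have hne := v.back.ne v'
      obtain ⟨l1, b1, b2⟩ := v.back
      have l2 := v'.1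
      generalize mv w y = z at *
      obtain ⟨k1, hk1⟩ := Int.dvd_of_emod_eq_zero b1
      obtain ⟨k2, hk2⟩ := Int.dvd_of_emod_eq_zero b2
      obtain ⟨k3, hk3⟩ := Int.dvd_of_emod_eq_zero hdw
      have key : sg η * (ss w * d.2.2 - tt w * d.2.1)
          = 3 * -(z.1 * k3 + k1 * d.2.1 + k2 * d.2.2) := by
        simp only [dot, wv] at *
        linear_combination ho - z.1 * hk3 - d.2.1 * hk1 - d.2.2 * hk2
      generalize -(z.1 * k3 + k1 * d.2.1 + k2 * d.2.2) = u at key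
      have : d.1 % 3 = 0 ∧ d.2.1 % 3 = 0 ∧ d.2.2 % 3 = 0 := by
        clear hk1 hk2 b1 b2 ho hd k hn hc h h' v v' he ih hI hm hk3
        simp only [dot, wv] at *
        rcases sg_c η with e | e <;> rw [e] at key <;>
          interval_cases w <;> interval_cases w' <;> simp [ss, tt] at * <;> omega
      rw [hd]
      simp only [sc, pow_succ, mul_assoc, Prod.mk.injEq]
      refine ⟨?_, ?_, ?_⟩ <;> congr 1 <;> omega
    · rw [← hn]
      generalize cr (mv w y) e' = u at *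
      generalize cr y e = u' at *
      simp only [dot, ap, Sm, sc, Prod.ext_iff] at *
      obtain ⟨k1, k2, k3⟩ := k
      have : 9 * (u.1 * u.1 + u.2.1 * u.2.1 + u.2.2 * u.2.2)
          = 9 * (u'.1 * u'.1 + u'.2.1 * u'.2.1 + u'.2.2 * u'.2.2) := by
        have e1 : 9 * (u.1 * u.1 + u.2.1 * u.2.1 + u.2.2 * u.2.2)
          = (-3 * u.1) ^ 2 + (-3 * u.2.1) ^ 2 + (-3 * u.2.2) ^ 2 := by ring
        rw [e1, ← k1, ← k2, ← k3]
        rcases ss_c w with s | s <;> rcases tt_c w with t | t <;> simp only [s, t] <;> ring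
      linarith

lemma cyc {y e : V} {w : ℕ} (h : I y e w) : cr y e = (0, 0, 0) := by
  obtain ⟨j, hj⟩ := pow_unbounded_of_one_lt (dot (cr y e) (cr y e)) (show (1 : ℤ) < 3 by norm_num)
  obtain ⟨y', e', -, c, -, hc, hn⟩ := cycD hI j y e w h
  rw [hc] at hn
  generalize cr y e = u at *
  have h1 : (1 : ℤ) ≤ 3 ^ j := one_le_pow₀ (by norm_num)
  generalize (3 : ℤ) ^ j = P at *
  have h2 : dot u u = P * P * dot c c := by rw [← hn]; simp only [dot, sc]; ring
  have h3 : dot c c ≤ 0 := by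
    by_contra hc
    have : 1 ≤ dot c c := by omega
    nlinarith [mul_le_mul_of_nonneg_left this (mul_self_nonneg P)]
  have h4 : dot u u ≤ 0 := by rw [h2]; exact mul_nonpos_of_nonneg_of_nonpos (mul_self_nonneg P) h3
  simp only [dot, Prod.ext_iff] at *
  refine ⟨?_, ?_, ?_⟩ <;> nlinarith [mul_self_nonneg u.1, mul_self_nonneg u.2.1, mul_self_nonneg u.2.2]

end Cyc

lemma par {n : ℤ} {y e a : V} (hA : A n y) (hq : Q y) (ha : dot a e = 1) (h : cr y e = (0, 0, 0)) :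
    dot e e = 12 * n + 2 := by
  obtain ⟨b, k, hb⟩ := hq
  have hy : y = sc (dot a y) e := by
    simp only [dot, sc, cr, Prod.ext_iff] at *
    obtain ⟨h1, h2, h3⟩ := h
    refine ⟨?_, ?_, ?_⟩
    · linear_combination (-y.1) * ha + a.2.1 * h3 - a.2.2 * h2
    · linear_combination (-y.2.1) * ha + a.2.2 * h1 - a.1 * h3
    · linear_combination (-y.2.2) * ha + a.1 * h2 - a.2.1 * h1
  generalize dot a y = l at hy
  have h1 : 12 * n + 2 = l * (l * dot e e) := by rw [← hA.1, hy]; simp only [dot, sc]; ring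
  have h2 : l ∣ 3 ^ k := ⟨dot b e, by rw [← hb, hy]; simp only [dot, sc]; ring⟩
  have h3 : IsCoprime l 3 := by
    rw [isCoprime_comm, Int.prime_three.irreducible.coprime_iff_not_dvd]
    rintro ⟨q, rfl⟩
    rw [mul_assoc] at h1
    omega
  rcases Int.isUnit_iff.1 (h3.pow_right.isUnit_of_dvd' dvd_rfl h2) with rfl | rfl <;> linarith

end Pool.Agent.Lib.MP_01eced_nt
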