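import Pool.Agent.Lib.MP_01eced_nt.Sound

/-! From the certificates of one prime to the representation. -/

namespace Pool.Agent.Lib.MP_01eced_nt

def ev (s : St) : V := (s.e1, s.e2, s.e3)

noncomputable def nc (T : Tab) (w c : ℕ) : ℕ :=
  mkc w (tb T (c / 4 % 64) (c % 4)) (tb T (c / 256) (c % 4))

def OkS (T : Tab) (s : St) : Prop :=
  dot (s.a1, s.a2, s.a3) (ev s) = 1 ∧
  (dot (ev s) (ev s) % 12 ≠ 2 ∨ dot (ev s) (ev s)
    = 6 * (2 * (s.wx : ℤ) ^ 2 + (3 * (s.wy : ℤ) ^ 2 - s.wy) + 2 * (2 * (s.wz : ℤ) ^ 2 - s.wz)) + 2) ∧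
  s.H ≠ [] ∧ getL T.S (fun t => an (decide (t.rk = s.rk ∧ t.eta = (!s.eta) ∧
    ap (Sm s.w) (ev s) = sc 3 (ev t))) (isPre t.H (nc T s.w (s.H.headD 0) :: s.H))) s.succ = true

noncomputable instance (T : Tab) (s : St) : Decidable (OkS T s) := by unfold OkS; infer_instance

def Cov (f : ℕ → ℕ → Bool) (a : ℕ) : Prop := ∀ i < a, ∃ x, f i x = true

lemma Cov.zero (f : ℕ → ℕ → Bool) : Cov f 0 := fun _ h => absurd h (Nat.not_lt_zero _)

lemma Cov.step {f : ℕ → ℕ → Bool} {a k : ℕ} {l : List ℕ} (b : ℕ) (h : Cov f a)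
    (r : range f a k l = true) (e : a + k = b) : Cov f b := by
  intro i hi
  by_cases c : i < a
  · exact h i c
  · obtain ⟨x, hx⟩ := loop_s (f := fun i c => f (a + i) c) k (join l) r (i - a) (by omega)
    exact ⟨x, by rwa [show a + (i - a) = i by omega] at hx⟩

lemma root (n : ℕ) : ∃ y, A n y ∧ Q y ∧ (Val y 0 true ∧ Fw 4 [] (mv 0 y) (!true) ∨
    Val y 2 true ∧ Fw 4 [3, 2, 3, 2, 3] (mv 2 y) (!true) ∨
    Val y 3 true ∧ Fw 4 [2, 3, 2, 3, 2] (mv 3 y) (!true)) := by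
  have fin : ∀ {y w η}, A n y ∧ Q y ∧ Val y w η → Fw 4 [] (mv w y) (!η) := fun h => by
    obtain ⟨v, g⟩ := (h.1.step h.2.2).ex _
    exact ⟨v, g, g.1.ne⟩
  by_cases h0 : ∃ y, A n y ∧ Q y ∧ Val y 0 true
  · obtain ⟨y, h⟩ := h0
    exact ⟨y, h.1, h.2.1, Or.inl ⟨h.2.2, fin h⟩⟩
  have two : ∀ {y w η}, A n y → Q y → Val y w η → 2 ≤ w := by
    rintro ⟨x, y, z⟩ w η ⟨a0, a1⟩ ⟨⟨a, b, c⟩, k, q⟩ g
    by_contra hw
    apply h0
    have hw : w < 2 := by omega
    simp only [A, Q, Cg, dot] at *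
    interval_cases w <;> cases η <;> simp [Val, ss, tt, sg] at g
    · exact ⟨(y, x, z), ⟨by linarith, by dsimp only; omega⟩, ⟨(b, a, c), k, by linarith⟩,
        by simp [Val, ss, tt, sg]; omega⟩
    · exact ⟨(x, y, z), ⟨a0, a1⟩, ⟨(a, b, c), k, q⟩, by simp [Val, ss, tt, sg]; omega⟩
    · exact ⟨(x, y, -z), ⟨by linarith, by dsimp only; omega⟩, ⟨(a, b, -c), k, by linarith⟩,
        by simp [Val, ss, tt, sg]; omega⟩
    · exact ⟨(y, x, -z), ⟨by linarith, by dsimp only; omega⟩, ⟨(b, a, -c), k, by linarith⟩,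
        by simp [Val, ss, tt, sg]; omega⟩
  have st : ∀ {y w η} v, v + w = 5 → A n y ∧ Q y ∧ Val y w η →
      A n (mv w y) ∧ Q (mv w y) ∧ Val (mv w y) v (!η) := by
    rintro y w η v e ⟨a, q, g⟩
    obtain ⟨v', g'⟩ := (a.step g).ex (!η)
    have h1 := two a q g
    have h2 := two (a.step g) (q.step g) g'
    have h3 := g.back.ne g'
    have h4 := g.1
    have h5 := g'.1
    exact ⟨a.step g, q.step g, (show v' = v by omega) ▸ g'⟩
  obtain ⟨y, a, q⟩ : ∃ y, A n y ∧ Q y := by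
    have key : ∀ x y z a b c : ℤ, x * x + y * y + z * z = 12 * n + 2 → a * x + b * y + c * z = 1 →
        x % 2 = 1 → y % 2 = 1 → z % 2 = 0 → ∃ y, A n y ∧ Q y := by
      intro x y z a b c h1 h2 hx hy hz
      simp only [A, Q, Cg, dot]
      by_cases cx : (x - 1 - z) % 4 = 0 <;> by_cases cy : (y - 1 - z) % 4 = 0
      · exact ⟨(x, y, z), ⟨h1, hz, cx, cy⟩, (a, b, c), 0, h2⟩
      · exact ⟨(x, -y, z), ⟨by linarith, by dsimp only; omega⟩, (a, -b, c), 0, by linarith⟩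
      · exact ⟨(-x, y, z), ⟨by linarith, by dsimp only; omega⟩, (-a, b, c), 0, by linarith⟩
      · exact ⟨(-x, -y, z), ⟨by linarith, by dsimp only; omega⟩, (-a, -b, c), 0, by linarith⟩
    obtain ⟨x, y, z, a, b, c, h1, h2⟩ := three_sq (12 * n + 2) (by omega)
    push_cast at h1
    have sq : ∀ x : ℤ, x % 2 = 0 ∧ x * x % 4 = 0 ∨ x % 2 = 1 ∧ x * x % 4 = 1 := fun x => by
      have : x % 4 = 0 ∨ x % 4 = 1 ∨ x % 4 = 2 ∨ x % 4 = 3 := by omega
      rcases this with h | h | h | h <;> simp [h, Int.mul_emod] <;> omega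
    rcases sq x with ⟨hx, gx⟩ | ⟨hx, gx⟩ <;> rcases sq y with ⟨hy, gy⟩ | ⟨hy, gy⟩ <;>
      rcases sq z with ⟨hz, gz⟩ | ⟨hz, gz⟩ <;>
      first
      | omega
      | exact key x y z a b c h1 h2 hx hy hz
      | exact key x z y a c b (by linarith) (by linarith) hx hz hy
      | exact key z y x c b a (by linarith) (by linarith) hz hy hx
  obtain ⟨w, g⟩ := a.ex true
  have h1 := two a q g
  have h2 := g.1
  refine ⟨y, a, q, Or.inr ?_⟩
  interval_cases w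
  · have s1 := st 3 rfl ⟨a, q, g⟩
    have s2 := st 2 rfl s1
    have s3 := st 3 rfl s2
    have s4 := st 2 rfl s3
    have s5 := st 3 rfl s4
    exact Or.inl ⟨g, s1.2.2, s2.2.2, s3.2.2, s4.2.2, s5.2.2, fin s5⟩
  · have s1 := st 2 rfl ⟨a, q, g⟩
    have s2 := st 3 rfl s1
    have s3 := st 2 rfl s2
    have s4 := st 3 rfl s3
    have s5 := st 2 rfl s4
    exact Or.inr ⟨g, s1.2.2, s2.2.2, s3.2.2, s4.2.2, s5.2.2, fin s5⟩

section

variable {T : Tab} (hT : OkT T) (hS : ∀ s ∈ T.S, OkS T s) (hX : Cov (jobX T) T.S.length) {n : ℤ}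
  (h2 : ∀ v, A n v → ∃ lo hi, lo < hi ∧ Mv T lo v ∧ Mv T hi v) (hb : Bad n)

include hT hS hX h2 hb

lemma noHit (r : ℕ) : ¬ Hit T n r := by
  induction r with
  | zero => rintro ⟨s, -, h, -⟩; omega
  | succ r ih =>
    rintro ⟨s0, m0, h0, y0, a0, q0, b0⟩
    rcases Nat.lt_succ_iff_lt_or_eq.1 h0 with c | c
    · exact ih ⟨s0, m0, c, y0, a0, q0, b0⟩
    have f1 : ∀ s ∈ T.S, s.rk = r → ∀ y, A n y → Hb T n s.H y s.eta → Val y s.w s.eta := by
      intro s m e y a b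
      obtain ⟨w, g⟩ := a.ex s.eta
      by_contra hn
      obtain ⟨i, hi, rfl⟩ := List.getElem_of_mem m
      obtain ⟨x, hx⟩ := hX i hi
      obtain ⟨s, es, hx⟩ := getL_s _ _ _ hx
      obtain rfl : T.S[i] = s := by simpa [hi] using es
      have hw : w ≠ T.S[i].w := fun e => hn (e ▸ g)
      exact ih (e ▸ back_s hT h2 hb _ _ [] _ y b ⟨w, g, hw⟩ hx)
    have z := cyc (I := fun y e w => ∃ s ∈ T.S, s.rk = r ∧ A n y ∧ Q y ∧ Hb T n s.H y s.eta ∧
        e = ev s ∧ w = s.w) (by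
      rintro y _ _ ⟨s, m, e, a, q, b, rfl, rfl⟩
      have g := f1 s m e y a b
      obtain ⟨-, -, o1, o2⟩ := hS s m
      obtain ⟨t, et, o2⟩ := getL_s _ _ _ o2
      obtain ⟨o2, o5⟩ := an_t.1 o2
      obtain ⟨o2, o3, o4⟩ := of_decide_eq_true o2
      have mt := List.mem_of_getElem? et
      have bt : Hb T n t.H (mv s.w y) t.eta := by
        rw [o3]
        refine Hb.pre _ _ _ _ o5 ?_
        obtain ⟨c, H, hH⟩ := List.exists_cons_of_ne_nil o1
        have b' := b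
        rw [hH] at b'
        obtain ⟨y', -, -, g3, g4, g5, g6, -⟩ := b'
        obtain ⟨k0, k1, k2⟩ := mkc_s hT g.1 (g4 ▸ g5.step hT g3) (g4 ▸ g6.step hT g3)
        have e : nc T s.w (s.H.headD 0) = mkc s.w (tb T (c / 4 % 64) (c % 4))
          (tb T (c / 256) (c % 4)) := by rw [hH]; rfl
        rw [e]
        refine ⟨y, a, q, ?_, ?_, k1, k2, ?_⟩
        · rw [k0, Bool.not_not]; exact g
        · rw [k0]
        · rw [Bool.not_not]; exact b
      exact ⟨s.eta, ev t, t.w, g, o4, o3 ▸ f1 t mt (o2.trans e) _ (a.step g) bt,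
        t, mt, o2.trans e, a.step g, q.step g, bt, rfl, rfl⟩) ⟨s0, m0, c, a0, q0, b0, rfl, rfl⟩
    obtain ⟨o1, o2, -⟩ := hS s0 m0
    have := par a0 q0 o1 z
    rcases o2 with o | o
    · omega
    · exact hb s0.wx s0.wy s0.wz (by positivity) (by positivity) (by linarith)

end

lemma cop {p : ℕ} (hp : p.Prime) {m : ℤ} (h : ¬ (p : ℤ) ∣ m) : IsCoprime m p :=
  ((Nat.prime_iff_prime_int.1 hp).irreducible.coprime_iff_not_dvd.2 h).symm

theorem of_cert {T : Tab} (hT : OkT T) (hS : ∀ s ∈ T.S, OkS T s) (hX : Cov (jobX T) T.S.length)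
    (hG : Cov (jobG T) (3 * ((T.p + 1) * (T.p + 1)))) (n : ℕ) {m : ℤ} (hm : IsCoprime m T.p)
    (h : (T.p : ℤ) ∣ m ^ 2 + (12 * n + 2)) : ¬ Bad n := by
  intro hb
  have h2 : ∀ v, A n v → ∃ lo hi, lo < hi ∧ Mv T lo v ∧ Mv T hi v :=
    fun v a => hT.two hm (a.1 ▸ h)
  obtain ⟨y, a, q, hy⟩ := root n
  obtain ⟨lo, hi, e, m1, m2⟩ := h2 y a
  have l1 := m1.1
  have l2 := m2.1
  have key : ∀ g < 3, ∃ x, Bool.rec (motive := fun _ => Bool) (Bool.rec (motive := fun _ => Bool)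
      (start T 1000 true 3 lo hi [2, 3, 2, 3, 2] 4 x) (start T 1000 true 2 lo hi [3, 2, 3, 2, 3] 4 x)
      (Nat.beq g 1)) (start T 1000 true 0 lo hi [] 4 x) (Nat.beq g 0) = true := by
    intro g hg
    obtain ⟨x, hx⟩ := hG (g + 3 * (lo + (T.p + 1) * hi)) (by
      have := Nat.mul_le_mul_left (T.p + 1) (Nat.succ_le_succ l2)
      rw [Nat.mul_succ] at this
      change _ ≤ (T.p + 1) * (T.p + 1) at this
      omega)
    have e1 : Nat.mod (g + 3 * (lo + (T.p + 1) * hi)) 3 = g := by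
      show _ % 3 = g
      omega
    have e2 : Nat.div (g + 3 * (lo + (T.p + 1) * hi)) 3 = lo + (T.p + 1) * hi := by
      show _ / 3 = _
      omega
    have e3 : Nat.mod (lo + (T.p + 1) * hi) (Nat.succ T.p) = lo := by
      show _ % (T.p + 1) = _
      rw [Nat.add_mul_mod_self_left, Nat.mod_eq_of_lt (by omega)]
    have e4 : Nat.div (lo + (T.p + 1) * hi) (Nat.succ T.p) = hi := by
      show _ / (T.p + 1) = _
      rw [Nat.add_mul_div_left _ _ (by omega), Nat.div_eq_of_lt (by omega), zero_add]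
    unfold jobG at hx
    refine ⟨x, ?_⟩
    have := (oo_t.1 hx).resolve_left fun c => by
      have := Nat.le_of_ble_eq_true c
      erw [e2, e3, e4] at this
      omega
    erw [e1, e2, e3, e4] at this
    exact this
  apply noHit hT hS hX h2 hb 1000
  rcases hy with ⟨g, f⟩ | ⟨g, f⟩ | ⟨g, f⟩
  · obtain ⟨x, hx⟩ := key 0 (by norm_num)
    exact start_s hT h2 hb a q g m1 m2 f hx
  · obtain ⟨x, hx⟩ := key 1 (by norm_num)
    exact start_s hT h2 hb a q g m1 m2 f hx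
  · obtain ⟨x, hx⟩ := key 2 (by norm_num)
    exact start_s hT h2 hb a q g m1 m2 f hx

end Pool.Agent.Lib.MP_01eced_nt
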