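import Pool.Agent.Lib.MP_01eced_nt.Main
import Pool.Agent.Lib.MP_01eced_nt.T11

namespace Pool.Agent.Lib.MP_01eced_nt

set_option maxRecDepth 100000

theorem okT11 : OkT T11 := by decide +kernel

theorem okS11 : ∀ s ∈ T11.S, OkS T11 s := by decide +kernel

theorem len11 : T11.S.length = 1240 := by decide +kernel

end Pool.Agent.Lib.MP_01eced_nt
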