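import Pool.Agent.Lib.MP_01eced_nt.Main
import Pool.Agent.Lib.MP_01eced_nt.T13

namespace Pool.Agent.Lib.MP_01eced_nt

set_option maxRecDepth 100000

theorem okT13 : OkT T13 := by decide +kernel

theorem okS13 : ∀ s ∈ T13.S, OkS T13 s := by decide +kernel

theorem len13 : T13.S.length = 200 := by decide +kernel

end Pool.Agent.Lib.MP_01eced_nt
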