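import Pool.Agent.Lib.MP_01eced_nt.Main
import Pool.Agent.Lib.MP_01eced_nt.T19

namespace Pool.Agent.Lib.MP_01eced_nt

set_option maxRecDepth 100000

theorem okT19 : OkT T19 := by decide +kernel

theorem okS19 : ∀ s ∈ T19.S, OkS T19 s := by decide +kernel

theorem len19 : T19.S.length = 712 := by decide +kernel

end Pool.Agent.Lib.MP_01eced_nt
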