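import Pool.Agent.Lib.MP_01eced_nt.Main
import Pool.Agent.Lib.MP_01eced_nt.T29

namespace Pool.Agent.Lib.MP_01eced_nt

set_option maxRecDepth 100000

theorem okT29 : OkT T29 := by decide +kernel

theorem okS29 : ∀ s ∈ T29.S, OkS T29 s := by decide +kernel

theorem len29 : T29.S.length = 268 := by decide +kernel

end Pool.Agent.Lib.MP_01eced_nt
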