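import Pool.Agent.Lib.MP_01eced_nt.Main
import Pool.Agent.Lib.MP_01eced_nt.T31

namespace Pool.Agent.Lib.MP_01eced_nt

set_option maxRecDepth 100000

theorem okT31 : OkT T31 := by decide +kernel

theorem okS31 : ∀ s ∈ T31.S, OkS T31 s := by decide +kernel

theorem len31 : T31.S.length = 316 := by decide +kernel

end Pool.Agent.Lib.MP_01eced_nt
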