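import Pool.Agent.Lib.MP_01eced_nt.Defs

namespace Pool.Agent.Lib.MP_01eced_nt

def S7_0 : List St := [
  ⟨true, 0, 1, 2, [1033, 1556, 1799, 770, 1033], 0, (-1), 2, 0, (-1), 0, 0, 0, 0⟩,
  ⟨false, 0, 2, 3, [770, 1033, 1556, 1799, 770], (-2), 1, 0, 0, 1, 0, 0, 0, 0⟩,
  ⟨true, 0, 3, 0, [1799, 770, 1033, 1556, 1799], 0, (-1), (-2), 0, 1, (-1), 0, 0, 0⟩,
  ⟨false, 0, 0, 1, [1556, 1799, 770, 1033, 1556], 2, 1, 0, 0, 1, 0, 0, 0, 0⟩,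
  ⟨false, 1, 5, 3, [1810, 1555, 1288, 1290, 1805], (-5), 7, (-6), (-3), (-2), 0, 2, 2, 0⟩,
  ⟨true, 1, 6, 1, [1551, 1810, 1555, 1288, 1290], (-1), 3, (-10), (-1), 0, 0, 2, 2, 0⟩,
  ⟨false, 1, 7, 2, [1805, 1551, 1810, 1555, 1288], (-9), (-5), (-2), (-1), 2, (-1), 2, 2, 0⟩,
  ⟨true, 1, 8, 0, [1290, 1805, 1551, 1810, 1555], (-5), (-9), 2, (-2), 1, 0, 2, 2, 0⟩,
  ⟨false, 1, 9, 3, [1288, 1290, 1805, 1551, 1810], 3, (-1), 10, 0, (-1), 0, 2, 2, 0⟩,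
  ⟨true, 1, 4, 2, [1555, 1288, 1290, 1805, 1551], 7, (-5), 6, (-2), (-3), 0, 2, 2, 0⟩,
  ⟨false, 2, 11, 3, [516, 773, 1295, 1814, 1808], (-3), (-7), 16, 2, (-1), 0, 2, 4, 0⟩,
  ⟨true, 2, 12, 1, [1551, 516, 773, 1295, 1814], 5, (-15), 8, (-3), 0, 2, 2, 4, 0⟩,
  ⟨false, 2, 13, 3, [1805, 1551, 516, 773, 1295], 17, (-3), (-4), (-1), (-6), 0, 2, 4, 0⟩,
  ⟨true, 2, 14, 2, [1291, 1805, 1551, 516, 773], 1, 13, 12, 1, 0, 0, 2, 4, 0⟩,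
  ⟨false, 2, 15, 3, [258, 1291, 1805, 1551, 516], 1, 13, 12, 1, 0, 0, 2, 4, 0⟩,
  ⟨true, 2, 16, 1, [259, 258, 1291, 1805, 1551], 17, (-3), (-4), (-1), (-6), 0, 2, 4, 0⟩,
  ⟨false, 2, 17, 3, [1289, 259, 258, 1291, 1805], 5, (-15), 8, (-3), 0, 2, 2, 4, 0⟩,
  ⟨true, 2, 18, 0, [1807, 1289, 259, 258, 1291], (-3), (-7), 16, 2, (-1), 0, 2, 4, 0⟩,
  ⟨false, 2, 19, 1, [1548, 1807, 1289, 259, 258], (-7), (-11), 12, 3, (-2), 0, 2, 4, 0⟩,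
  ⟨true, 2, 20, 3, [517, 1548, 1807, 1289, 259], 13, 9, (-8), (-2), 3, 0, 2, 4, 0⟩,
  ⟨false, 2, 21, 2, [775, 517, 1548, 1807, 1289], 5, 17, 0, 7, (-2), 0, 2, 4, 0⟩,
  ⟨true, 2, 22, 0, [1294, 775, 517, 1548, 1807], 13, 9, 8, (-2), 3, 0, 2, 4, 0⟩,
  ⟨false, 2, 23, 1, [1812, 1294, 775, 517, 1548], (-7), (-11), (-12), 3, (-2), 0, 2, 4, 0⟩,
  ⟨true, 2, 24, 2, [1809, 1812, 1294, 775, 517], (-3), (-7), (-16), 2, (-1), 0, 2, 4, 0⟩,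
  ⟨false, 2, 25, 0, [1282, 1809, 1812, 1294, 775], 5, (-15), (-8), (-3), 0, (-2), 2, 4, 0⟩,
  ⟨true, 2, 26, 2, [1284, 1282, 1809, 1812, 1294], 17, (-3), 4, (-1), (-6), 0, 2, 4, 0⟩,
  ⟨false, 2, 27, 3, [1038, 1284, 1282, 1809, 1812], 1, 13, (-12), 1, 0, 0, 2, 4, 0⟩,
  ⟨true, 2, 28, 2, [1819, 1038, 1284, 1282, 1809], 1, 13, (-12), 1, 0, 0, 2, 4, 0⟩,
  ⟨false, 2, 29, 0, [1818, 1819, 1038, 1284, 1282], 17, (-3), 4, (-1), (-6), 0, 2, 4, 0⟩,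
  ⟨true, 2, 30, 2, [1036, 1818, 1819, 1038, 1284], 5, (-15), (-8), (-3), 0, (-2), 2, 4, 0⟩,
  ⟨false, 2, 31, 1, [1286, 1036, 1818, 1819, 1038], (-3), (-7), (-16), 2, (-1), 0, 2, 4, 0⟩,
  ⟨true, 2, 32, 0, [1281, 1286, 1036, 1818, 1819], (-7), (-11), (-12), 3, (-2), 0, 2, 4, 0⟩,
  ⟨false, 2, 33, 2, [1808, 1281, 1286, 1036, 1818], 13, 9, 8, (-2), 3, 0, 2, 4, 0⟩,
  ⟨true, 2, 34, 3, [1814, 1808, 1281, 1286, 1036], 5, 17, 0, 7, (-2), 0, 2, 4, 0⟩,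
  ⟨false, 2, 35, 1, [1295, 1814, 1808, 1281, 1286], 13, 9, (-8), (-2), 3, 0, 2, 4, 0⟩,
  ⟨true, 2, 10, 0, [773, 1295, 1814, 1808, 1281], (-7), (-11), 12, 3, (-2), 0, 2, 4, 0⟩,
  ⟨false, 3, 37, 3, [1289, 1290, 1552, 1811, 1550], (-1), 3, (-10), (-1), 0, 0, 2, 2, 0⟩,
  ⟨true, 3, 38, 2, [1807, 1289, 1290, 1552, 1811], (-5), 7, (-6), (-3), (-2), 0, 2, 2, 0⟩,
  ⟨false, 3, 39, 3, [1550, 1807, 1289, 1290, 1552], 7, (-5), 6, (-2), (-3), 0, 2, 2, 0⟩,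
  ⟨true, 3, 40, 0, [1811, 1550, 1807, 1289, 1290], 3, (-1), 10, 0, (-1), 0, 2, 2, 0⟩,
  ⟨false, 3, 41, 2, [1552, 1811, 1550, 1807, 1289], (-5), (-9), 2, (-2), 1, 0, 2, 2, 0⟩,
  ⟨true, 3, 36, 1, [1290, 1552, 1811, 1550, 1807], (-9), (-5), (-2), (-1), 2, (-1), 2, 2, 0⟩,
  ⟨false, 4, 43, 3, [1809, 1550, 516, 1283, 1809], 2, 0, (-1), 0, 0, (-1), 0, 0, 0⟩,
  ⟨true, 4, 44, 0, [1283, 1809, 1550, 516, 1283], 0, 2, 1, 0, 0, 1, 0, 0, 0⟩,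
  ⟨false, 4, 45, 2, [516, 1283, 1809, 1550, 516], (-2), 0, (-1), 0, 0, (-1), 0, 0, 0⟩,
  ⟨true, 4, 42, 1, [1550, 516, 1283, 1809, 1550], 0, (-2), 1, 0, 0, 1, 0, 0, 0⟩,
  ⟨true, 5, 47, 2, [1292, 1801, 1539, 1030, 1292], (-1), 0, (-2), 1, 0, (-1), 0, 0, 0⟩,
  ⟨false, 5, 48, 3, [1030, 1292, 1801, 1539, 1030], 1, (-2), 0, (-1), (-1), 0, 0, 0, 0⟩,
  ⟨true, 5, 49, 1, [1539, 1030, 1292, 1801, 1539], (-1), 0, 2, (-1), 0, 0, 0, 0, 0⟩,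
  ⟨false, 5, 46, 0, [1801, 1539, 1030, 1292, 1801], 1, 2, 0, 1, 0, 0, 0, 0, 0⟩,
  ⟨false, 6, 51, 0, [519, 773, 772, 517, 1283], 3, 7, 2, (-2), 1, 0, 0, 2, 0⟩,
  ⟨true, 6, 52, 1, [1280, 519, 773, 772, 517], (-5), (-1), (-6), 0, (-1), 0, 0, 2, 0⟩,
  ⟨false, 6, 53, 0, [1025, 1280, 519, 773, 772], (-5), (-1), (-6), 0, (-1), 0, 0, 2, 0⟩,
  ⟨true, 6, 54, 3, [1024, 1025, 1280, 519, 773], 3, 7, 2, (-2), 1, 0, 0, 2, 0⟩,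
  ⟨false, 6, 55, 1, [1283, 1024, 1025, 1280, 519], 7, 3, (-2), (-1), 2, (-1), 0, 2, 0⟩,
  ⟨true, 6, 56, 0, [517, 1283, 1024, 1025, 1280], (-1), (-5), 6, (-1), 0, 0, 0, 2, 0⟩,
  ⟨false, 6, 57, 1, [772, 517, 1283, 1024, 1025], (-1), (-5), 6, (-1), 0, 0, 0, 2, 0⟩,
  ⟨true, 6, 50, 3, [773, 772, 517, 1283, 1024], 7, 3, (-2), (-1), 2, (-1), 0, 2, 0⟩,
  ⟨false, 7, 59, 3, [1813, 1543, 1026, 1025, 1542], 5, (-3), 2, (-1), (-2), 0, 1, 1, 1⟩,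
  ⟨true, 7, 60, 2, [1815, 1813, 1543, 1026, 1025], 1, 1, 6, 0, 1, 0, 1, 1, 1⟩,
  ⟨false, 7, 61, 1, [1542, 1815, 1813, 1543, 1026], (-3), 5, 2, (-2), (-1), 0, 1, 1, 1⟩,
  ⟨true, 7, 62, 2, [1025, 1542, 1815, 1813, 1543], (-3), 5, 2, (-2), (-1), 0, 1, 1, 1⟩,
  ⟨false, 7, 63, 3, [1026, 1025, 1542, 1815, 1813], 1, 1, 6, 0, 1, 0, 1, 1, 1⟩,
  ⟨true, 7, 58, 1, [1543, 1026, 1025, 1542, 1815], 5, (-3), 2, (-1), (-2), 0, 1, 1, 1⟩,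
  ⟨false, 8, 65, 2, [1808, 1555, 1537, 512, 518], (-2), (-3), 2, 1, (-1), 0, 0, 0, 0⟩,
  ⟨true, 8, 66, 3, [1814, 1808, 1555, 1537, 512], (-4), (-1), 0, 0, (-1), 0, 0, 0, 0⟩,
  ⟨false, 8, 67, 1, [1295, 1814, 1808, 1555, 1537], (-2), (-3), (-2), (-1), 1, (-1), 0, 0, 0⟩,
  ⟨true, 8, 68, 2, [773, 1295, 1814, 1808, 1555], 0, (-1), (-4), 0, (-1), 0, 0, 0, 0⟩,
  ⟨false, 8, 69, 0, [518, 773, 1295, 1814, 1808], 2, (-3), (-2), 1, 1, (-1), 0, 0, 0⟩,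
  ⟨true, 8, 70, 1, [512, 518, 773, 1295, 1814], 4, (-1), 0, 0, (-1), 0, 0, 0, 0⟩,
  ⟨false, 8, 71, 3, [1537, 512, 518, 773, 1295], 2, (-3), 2, (-1), (-1), 0, 0, 0, 0⟩,
  ⟨true, 8, 64, 0, [1555, 1537, 512, 518, 773], 0, (-1), 4, 0, (-1), 0, 0, 0, 0⟩,
  ⟨false, 9, 73, 0, [1810, 1281, 519, 1548, 1810], 2, 0, 1, 0, 0, 1, 0, 0, 0⟩,
  ⟨true, 9, 74, 3, [1548, 1810, 1281, 519, 1548], 0, (-2), (-1), 0, 0, (-1), 0, 0, 0⟩,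
  ⟨false, 9, 75, 1, [519, 1548, 1810, 1281, 519], (-2), 0, 1, 0, 0, 1, 0, 0, 0⟩,
  ⟨true, 9, 72, 2, [1281, 519, 1548, 1810, 1281], 0, 2, (-1), 0, 0, (-1), 0, 0, 0⟩,
  ⟨false, 10, 77, 1, [1798, 1559, 1032, 769, 1798], 0, (-1), 2, 0, (-1), 0, 0, 0, 0⟩,
  ⟨true, 10, 78, 0, [769, 1798, 1559, 1032, 769], 2, 1, 0, 0, 1, 0, 0, 0, 0⟩,
  ⟨false, 10, 79, 3, [1032, 769, 1798, 1559, 1032], 0, (-1), (-2), 0, 1, (-1), 0, 0, 0⟩,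
  ⟨true, 10, 76, 2, [1559, 1032, 769, 1798, 1559], (-2), 1, 0, 0, 1, 0, 0, 0, 0⟩,
  ⟨false, 11, 81, 0, [1283, 1809, 1550, 516, 1283], 0, (-2), (-1), 0, 0, (-1), 0, 0, 0⟩,
  ⟨true, 11, 82, 2, [516, 1283, 1809, 1550, 516], 2, 0, 1, 0, 0, 1, 0, 0, 0⟩,
  ⟨false, 11, 83, 1, [1550, 516, 1283, 1809, 1550], 0, 2, (-1), 0, 0, (-1), 0, 0, 0⟩,
  ⟨true, 11, 80, 3, [1809, 1550, 516, 1283, 1809], (-2), 0, 1, 0, 0, 1, 0, 0, 0⟩,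
  ⟨false, 12, 85, 3, [1548, 1810, 1281, 519, 1548], 0, 2, 1, 0, 0, 1, 0, 0, 0⟩,
  ⟨true, 12, 86, 1, [519, 1548, 1810, 1281, 519], 2, 0, (-1), 0, 0, (-1), 0, 0, 0⟩,
  ⟨false, 12, 87, 2, [1281, 519, 1548, 1810, 1281], 0, (-2), 1, 0, 0, 1, 0, 0, 0⟩,
  ⟨true, 12, 84, 0, [1810, 1281, 519, 1548, 1810], (-2), 0, (-1), 0, 0, (-1), 0, 0, 0⟩,
  ⟨false, 13, 89, 3, [1288, 259, 258, 1291, 1552], (-15), 5, (-8), 0, (-3), (-2), 2, 4, 0⟩,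
  ⟨true, 13, 90, 1, [1555, 1288, 259, 258, 1291], (-7), (-3), (-16), (-1), 2, 0, 2, 4, 0⟩,
  ⟨false, 13, 91, 0, [1809, 1555, 1288, 259, 258], (-11), (-7), (-12), (-2), 3, 0, 2, 4, 0⟩,
  ⟨true, 13, 92, 3, [1280, 1809, 1555, 1288, 259], 9, 13, 8, 3, (-2), 0, 2, 4, 0⟩,
  ⟨false, 13, 93, 2, [1027, 1280, 1809, 1555, 1288], 17, 5, 0, (-2), 7, 0, 2, 4, 0⟩,
  ⟨true, 13, 94, 1, [1034, 1027, 1280, 1809, 1555], 9, 13, (-8), 3, (-2), 0, 2, 4, 0⟩,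
  ⟨false, 13, 95, 0, [1545, 1034, 1027, 1280, 1809], (-11), (-7), 12, (-2), 3, 0, 2, 4, 0⟩,
  ⟨true, 13, 96, 2, [1548, 1545, 1034, 1027, 1280], (-7), (-3), 16, (-1), 2, 0, 2, 4, 0⟩,
  ⟨false, 13, 97, 1, [518, 1548, 1545, 1034, 1027], (-15), 5, 8, 0, (-3), 2, 2, 4, 0⟩,
  ⟨true, 13, 98, 2, [513, 518, 1548, 1545, 1034], (-3), 17, (-4), (-6), (-1), 0, 2, 4, 0⟩,
  ⟨false, 13, 99, 3, [1038, 513, 518, 1548, 1545], 13, 1, 12, 0, 1, 0, 2, 4, 0⟩,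
  ⟨true, 13, 100, 2, [1819, 1038, 513, 518, 1548], 13, 1, 12, 0, 1, 0, 2, 4, 0⟩]

def S7_1 : List St := [
  ⟨false, 13, 101, 1, [1818, 1819, 1038, 513, 518], (-3), 17, (-4), (-6), (-1), 0, 2, 4, 0⟩,
  ⟨true, 13, 102, 2, [1037, 1818, 1819, 1038, 513], (-15), 5, 8, 0, (-3), 2, 2, 4, 0⟩,
  ⟨false, 13, 103, 0, [514, 1037, 1818, 1819, 1038], (-7), (-3), 16, (-1), 2, 0, 2, 4, 0⟩,
  ⟨true, 13, 104, 1, [516, 514, 1037, 1818, 1819], (-11), (-7), 12, (-2), 3, 0, 2, 4, 0⟩,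
  ⟨false, 13, 105, 2, [1549, 516, 514, 1037, 1818], 9, 13, (-8), 3, (-2), 0, 2, 4, 0⟩,
  ⟨true, 13, 106, 3, [1546, 1549, 516, 514, 1037], 17, 5, 0, (-2), 7, 0, 2, 4, 0⟩,
  ⟨false, 13, 107, 0, [1035, 1546, 1549, 516, 514], 9, 13, 8, 3, (-2), 0, 2, 4, 0⟩,
  ⟨true, 13, 108, 1, [1024, 1035, 1546, 1549, 516], (-11), (-7), (-12), (-2), 3, 0, 2, 4, 0⟩,
  ⟨false, 13, 109, 3, [1281, 1024, 1035, 1546, 1549], (-7), (-3), (-16), (-1), 2, 0, 2, 4, 0⟩,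
  ⟨true, 13, 110, 0, [1811, 1281, 1024, 1035, 1546], (-15), 5, (-8), 0, (-3), (-2), 2, 4, 0⟩,
  ⟨false, 13, 111, 3, [1552, 1811, 1281, 1024, 1035], (-3), 17, 4, (-6), (-1), 0, 2, 4, 0⟩,
  ⟨true, 13, 112, 2, [1291, 1552, 1811, 1281, 1024], 13, 1, (-12), 0, 1, 0, 2, 4, 0⟩,
  ⟨false, 13, 113, 3, [258, 1291, 1552, 1811, 1281], 13, 1, (-12), 0, 1, 0, 2, 4, 0⟩,
  ⟨true, 13, 88, 0, [259, 258, 1291, 1552, 1811], (-3), 17, 4, (-6), (-1), 0, 2, 4, 0⟩,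
  ⟨false, 14, 115, 0, [1035, 1546, 1549, 1807, 1796], (-3), (-2), 2, (-1), 1, 0, 0, 0, 0⟩,
  ⟨true, 14, 116, 2, [1024, 1035, 1546, 1549, 1807], (-1), 0, 4, (-1), 0, 0, 0, 0, 0⟩,
  ⟨false, 14, 117, 1, [1282, 1024, 1035, 1546, 1549], (-3), 2, 2, 1, 2, 0, 0, 0, 0⟩,
  ⟨true, 14, 118, 0, [1285, 1282, 1024, 1035, 1546], (-1), 4, 0, (-1), 0, 0, 0, 0, 0⟩,
  ⟨false, 14, 119, 3, [1796, 1285, 1282, 1024, 1035], (-3), 2, (-2), (-1), (-2), (-1), 0, 0, 0⟩,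
  ⟨true, 14, 120, 1, [1807, 1796, 1285, 1282, 1024], (-1), 0, (-4), (-1), 0, 0, 0, 0, 0⟩,
  ⟨false, 14, 121, 2, [1549, 1807, 1796, 1285, 1282], (-3), (-2), (-2), 1, (-1), (-1), 0, 0, 0⟩,
  ⟨true, 14, 114, 3, [1546, 1549, 1807, 1796, 1285], (-1), (-4), 0, (-1), 0, 0, 0, 0, 0⟩,
  ⟨false, 15, 123, 0, [1794, 1547, 1544, 1795, 774], 5, (-3), (-2), 1, 2, (-1), 1, 1, 1⟩,
  ⟨true, 15, 124, 2, [772, 1794, 1547, 1544, 1795], 5, (-3), (-2), 1, 2, (-1), 1, 1, 1⟩,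
  ⟨false, 15, 125, 3, [774, 772, 1794, 1547, 1544], 1, 1, (-6), 0, 1, 0, 1, 1, 1⟩,
  ⟨true, 15, 126, 0, [1795, 774, 772, 1794, 1547], (-3), 5, (-2), 2, 1, (-1), 1, 1, 1⟩,
  ⟨false, 15, 127, 3, [1544, 1795, 774, 772, 1794], (-3), 5, (-2), 2, 1, (-1), 1, 1, 1⟩,
  ⟨true, 15, 122, 2, [1547, 1544, 1795, 774, 772], 1, 1, (-6), 0, 1, 0, 1, 1, 1⟩,
  ⟨true, 16, 129, 2, [519, 514, 1037, 1039, 1284], (-5), 7, 6, (-3), (-2), 0, 2, 2, 0⟩,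
  ⟨false, 16, 130, 0, [1282, 519, 514, 1037, 1039], (-1), 3, 10, (-1), 0, 0, 2, 2, 0⟩,
  ⟨true, 16, 131, 3, [1284, 1282, 519, 514, 1037], (-9), (-5), 2, 1, (-2), 0, 2, 2, 0⟩,
  ⟨false, 16, 132, 1, [1039, 1284, 1282, 519, 514], (-5), (-9), (-2), 2, (-1), (-1), 2, 2, 0⟩,
  ⟨true, 16, 133, 2, [1037, 1039, 1284, 1282, 519], 3, (-1), (-10), 0, (-1), 0, 2, 2, 0⟩,
  ⟨false, 16, 128, 3, [514, 1037, 1039, 1284, 1282], 7, (-5), (-6), (-2), (-3), 0, 2, 2, 0⟩,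
  ⟨false, 17, 135, 3, [1293, 1028, 1538, 1803, 1293], (-1), 0, 2, (-1), 0, 0, 0, 0, 0⟩,
  ⟨true, 17, 136, 2, [1803, 1293, 1028, 1538, 1803], 1, (-2), 0, (-1), (-1), 0, 0, 0, 0⟩,
  ⟨false, 17, 137, 0, [1538, 1803, 1293, 1028, 1538], (-1), 0, (-2), 1, 0, (-1), 0, 0, 0⟩,
  ⟨true, 17, 134, 1, [1028, 1538, 1803, 1293, 1028], 1, 2, 0, 1, 0, 0, 0, 0, 0⟩,
  ⟨false, 18, 139, 0, [1286, 1797, 1804, 1551, 1545], (-1), 0, 4, (-1), 0, 0, 0, 0, 0⟩,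
  ⟨true, 18, 140, 3, [1280, 1286, 1797, 1804, 1551], (-3), (-2), 2, (-1), 1, 0, 0, 0, 0⟩,
  ⟨false, 18, 141, 2, [1027, 1280, 1286, 1797, 1804], (-1), (-4), 0, (-1), 0, 0, 0, 0, 0⟩,
  ⟨true, 18, 142, 1, [1034, 1027, 1280, 1286, 1797], (-3), (-2), (-2), 1, (-1), (-1), 0, 0, 0⟩,
  ⟨false, 18, 143, 3, [1545, 1034, 1027, 1280, 1286], (-1), 0, (-4), (-1), 0, 0, 0, 0, 0⟩,
  ⟨true, 18, 144, 0, [1551, 1545, 1034, 1027, 1280], (-3), 2, (-2), (-1), (-2), (-1), 0, 0, 0⟩,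
  ⟨false, 18, 145, 1, [1804, 1551, 1545, 1034, 1027], (-1), 4, 0, (-1), 0, 0, 0, 0, 0⟩,
  ⟨true, 18, 138, 2, [1797, 1804, 1551, 1545, 1034], (-3), 2, 2, 1, 2, 0, 0, 0, 0⟩,
  ⟨true, 19, 147, 2, [1283, 1286, 1036, 1039, 513], 7, (-5), (-6), (-2), (-3), 0, 2, 2, 0⟩,
  ⟨false, 19, 148, 1, [518, 1283, 1286, 1036, 1039], 3, (-1), (-10), 0, (-1), 0, 2, 2, 0⟩,
  ⟨true, 19, 149, 3, [513, 518, 1283, 1286, 1036], (-5), (-9), (-2), 2, (-1), (-1), 2, 2, 0⟩,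
  ⟨false, 19, 150, 0, [1039, 513, 518, 1283, 1286], (-9), (-5), 2, 1, (-2), 0, 2, 2, 0⟩,
  ⟨true, 19, 151, 2, [1036, 1039, 513, 518, 1283], (-1), 3, 10, (-1), 0, 0, 2, 2, 0⟩,
  ⟨false, 19, 146, 3, [1286, 1036, 1039, 513, 518], (-5), 7, 6, (-3), (-2), 0, 2, 2, 0⟩,
  ⟨false, 20, 153, 2, [1812, 1813, 1808, 1550, 1545], 7, 3, 2, 1, (-2), 0, 0, 2, 0⟩,
  ⟨true, 20, 154, 1, [1810, 1812, 1813, 1808, 1550], 3, 7, (-2), 2, (-1), (-1), 0, 2, 0⟩,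
  ⟨false, 20, 155, 0, [1549, 1810, 1812, 1813, 1808], (-5), (-1), 6, 0, (-1), 0, 0, 2, 0⟩,
  ⟨true, 20, 156, 1, [1544, 1549, 1810, 1812, 1813], (-5), (-1), 6, 0, (-1), 0, 0, 2, 0⟩,
  ⟨false, 20, 157, 2, [1545, 1544, 1549, 1810, 1812], 3, 7, (-2), 2, (-1), (-1), 0, 2, 0⟩,
  ⟨true, 20, 158, 0, [1550, 1545, 1544, 1549, 1810], 7, 3, 2, 1, (-2), 0, 0, 2, 0⟩,
  ⟨false, 20, 159, 1, [1808, 1550, 1545, 1544, 1549], (-1), (-5), (-6), (-1), 0, 0, 0, 2, 0⟩,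
  ⟨true, 20, 152, 0, [1813, 1808, 1550, 1545, 1544], (-1), (-5), (-6), (-1), 0, 0, 0, 2, 0⟩,
  ⟨false, 21, 161, 0, [1553, 1811, 1812, 1294, 775], 4, (-1), 0, 0, (-1), 0, 0, 0, 0⟩,
  ⟨true, 21, 162, 2, [1536, 1553, 1811, 1812, 1294], 2, (-3), (-2), 1, 1, (-1), 0, 0, 0⟩,
  ⟨false, 21, 163, 1, [514, 1536, 1553, 1811, 1812], 0, (-1), (-4), 0, (-1), 0, 0, 0, 0⟩,
  ⟨true, 21, 164, 3, [517, 514, 1536, 1553, 1811], (-2), (-3), (-2), (-1), 1, (-1), 0, 0, 0⟩,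
  ⟨false, 21, 165, 2, [775, 517, 514, 1536, 1553], (-4), (-1), 0, 0, (-1), 0, 0, 0, 0⟩,
  ⟨true, 21, 166, 0, [1294, 775, 517, 514, 1536], (-2), (-3), 2, 1, (-1), 0, 0, 0, 0⟩,
  ⟨false, 21, 167, 3, [1812, 1294, 775, 517, 514], 0, (-1), 4, 0, (-1), 0, 0, 0, 0⟩,
  ⟨true, 21, 160, 1, [1811, 1812, 1294, 775, 517], 2, (-3), 2, (-1), (-1), 0, 0, 0, 0⟩]

def T7 : Tab := ⟨nat_lit 7, true, nat_lit 0x7d827a7a7d82827a7d7d867e7e7d7a86827d7d86827e7d867a7e7d7d82867a7d7e7e867d7d7a7e827d86867e7d7d7e7a867d7e82867d7d7e86867d827e7a7d7d7a82827d7a7a827d,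
  nat_lit 0x9c872dc9d2633678,
  nat_lit 0x1831471c41820451c41060050c70810020c6140043081100,
  nat_lit 0x1083105187,
  S7_0 ++ (S7_1)⟩

end Pool.Agent.Lib.MP_01eced_nt
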