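import Pool.Agent.Lib.MP_01eced_nt.O11
import Pool.Agent.Lib.MP_01eced_nt.J11_0
import Pool.Agent.Lib.MP_01eced_nt.J11_1
import Pool.Agent.Lib.MP_01eced_nt.J11_2
import Pool.Agent.Lib.MP_01eced_nt.J11_3
import Pool.Agent.Lib.MP_01eced_nt.J11_4
import Pool.Agent.Lib.MP_01eced_nt.J11_5

namespace Pool.Agent.Lib.MP_01eced_nt

theorem covG11 : Cov (jobG T11) 432 := by
  have c := Cov.zero (jobG T11)
  have c := c.step 72 j11G_0 rfl
  have c := c.step 108 j11G_72 rfl
  have c := c.step 111 j11G_108 rfl
  have c := c.step 112 j11G_111 rfl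
  have c := c.step 144 j11G_112 rfl
  have c := c.step 147 j11G_144 rfl
  have c := c.step 153 j11G_147 rfl
  have c := c.step 180 j11G_153 rfl
  have c := c.step 183 j11G_180 rfl
  have c := c.step 186 j11G_183 rfl
  have c := c.step 192 j11G_186 rfl
  have c := c.step 216 j11G_192 rfl
  have c := c.step 219 j11G_216 rfl
  have c := c.step 222 j11G_219 rfl
  have c := c.step 223 j11G_222 rfl
  have c := c.step 228 j11G_223 rfl
  have c := c.step 252 j11G_228 rfl
  have c := c.step 255 j11G_252 rfl
  have c := c.step 258 j11G_255 rfl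
  have c := c.step 264 j11G_258 rfl
  have c := c.step 270 j11G_264 rfl
  have c := c.step 290 j11G_270 rfl
  have c := c.step 294 j11G_290 rfl
  have c := c.step 297 j11G_294 rfl
  have c := c.step 300 j11G_297 rfl
  have c := c.step 303 j11G_300 rfl
  have c := c.step 306 j11G_303 rfl
  have c := c.step 309 j11G_306 rfl
  have c := c.step 324 j11G_309 rfl
  have c := c.step 327 j11G_324 rfl
  have c := c.step 330 j11G_327 rfl
  have c := c.step 333 j11G_330 rfl
  have c := c.step 336 j11G_333 rfl
  have c := c.step 339 j11G_336 rfl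
  have c := c.step 342 j11G_339 rfl
  have c := c.step 345 j11G_342 rfl
  have c := c.step 348 j11G_345 rfl
  have c := c.step 360 j11G_348 rfl
  have c := c.step 366 j11G_360 rfl
  have c := c.step 369 j11G_366 rfl
  have c := c.step 370 j11G_369 rfl
  have c := c.step 378 j11G_370 rfl
  have c := c.step 384 j11G_378 rfl
  have c := c.step 389 j11G_384 rfl
  have c := c.step 399 j11G_389 rfl
  have c := c.step 402 j11G_399 rfl
  have c := c.step 405 j11G_402 rfl
  have c := c.step 406 j11G_405 rfl
  have c := c.step 411 j11G_406 rfl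
  have c := c.step 414 j11G_411 rfl
  have c := c.step 417 j11G_414 rfl
  have c := c.step 420 j11G_417 rfl
  have c := c.step 423 j11G_420 rfl
  have c := c.step 432 j11G_423 rfl
  exact c

theorem covX11 : Cov (jobX T11) 1240 := by
  have c := Cov.zero (jobX T11)
  have c := c.step 23 j11X_0 rfl
  have c := c.step 37 j11X_23 rfl
  have c := c.step 64 j11X_37 rfl
  have c := c.step 106 j11X_64 rfl
  have c := c.step 133 j11X_106 rfl
  have c := c.step 152 j11X_133 rfl
  have c := c.step 186 j11X_152 rfl
  have c := c.step 213 j11X_186 rfl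
  have c := c.step 251 j11X_213 rfl
  have c := c.step 292 j11X_251 rfl
  have c := c.step 322 j11X_292 rfl
  have c := c.step 356 j11X_322 rfl
  have c := c.step 400 j11X_356 rfl
  have c := c.step 450 j11X_400 rfl
  have c := c.step 463 j11X_450 rfl
  have c := c.step 486 j11X_463 rfl
  have c := c.step 519 j11X_486 rfl
  have c := c.step 543 j11X_519 rfl
  have c := c.step 577 j11X_543 rfl
  have c := c.step 596 j11X_577 rfl
  have c := c.step 619 j11X_596 rfl
  have c := c.step 657 j11X_619 rfl
  have c := c.step 690 j11X_657 rfl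
  have c := c.step 733 j11X_690 rfl
  have c := c.step 781 j11X_733 rfl
  have c := c.step 830 j11X_781 rfl
  have c := c.step 884 j11X_830 rfl
  have c := c.step 916 j11X_884 rfl
  have c := c.step 976 j11X_916 rfl
  have c := c.step 1032 j11X_976 rfl
  have c := c.step 1063 j11X_1032 rfl
  have c := c.step 1103 j11X_1063 rfl
  have c := c.step 1157 j11X_1103 rfl
  have c := c.step 1196 j11X_1157 rfl
  have c := c.step 1215 j11X_1196 rfl
  have c := c.step 1240 j11X_1215 rfl
  exact c

theorem good11 (n : ℕ) (m : ℤ) (hm : ¬ (11 : ℤ) ∣ m) (h : (11 : ℤ) ∣ m ^ 2 + (12 * n + 2)) :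
    ¬ Bad n :=
  of_cert okT11 okS11 (len11 ▸ covX11) covG11 n
    (cop (p := 11) (by norm_num) hm) h

end Pool.Agent.Lib.MP_01eced_nt
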