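import Pool.Agent.Lib.MP_01eced_nt.O13
import Pool.Agent.Lib.MP_01eced_nt.J13_0
import Pool.Agent.Lib.MP_01eced_nt.J13_1

namespace Pool.Agent.Lib.MP_01eced_nt

theorem covG13 : Cov (jobG T13) 588 := by
  have c := Cov.zero (jobG T13)
  have c := c.step 169 j13G_0 rfl
  have c := c.step 216 j13G_169 rfl
  have c := c.step 258 j13G_216 rfl
  have c := c.step 297 j13G_258 rfl
  have c := c.step 306 j13G_297 rfl
  have c := c.step 338 j13G_306 rfl
  have c := c.step 355 j13G_338 rfl
  have c := c.step 390 j13G_355 rfl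
  have c := c.step 402 j13G_390 rfl
  have c := c.step 441 j13G_402 rfl
  have c := c.step 470 j13G_441 rfl
  have c := c.step 486 j13G_470 rfl
  have c := c.step 516 j13G_486 rfl
  have c := c.step 537 j13G_516 rfl
  have c := c.step 558 j13G_537 rfl
  have c := c.step 573 j13G_558 rfl
  have c := c.step 588 j13G_573 rfl
  exact c

theorem covX13 : Cov (jobX T13) 200 := by
  have c := Cov.zero (jobX T13)
  have c := c.step 48 j13X_0 rfl
  have c := c.step 101 j13X_48 rfl
  have c := c.step 157 j13X_101 rfl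
  have c := c.step 200 j13X_157 rfl
  exact c

theorem good13 (n : ℕ) (m : ℤ) (hm : ¬ (13 : ℤ) ∣ m) (h : (13 : ℤ) ∣ m ^ 2 + (12 * n + 2)) :
    ¬ Bad n :=
  of_cert okT13 okS13 (len13 ▸ covX13) covG13 n
    (cop (p := 13) (by norm_num) hm) h

end Pool.Agent.Lib.MP_01eced_nt
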