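import Pool.Agent.Lib.MP_01eced_nt.O17
import Pool.Agent.Lib.MP_01eced_nt.J17_0
import Pool.Agent.Lib.MP_01eced_nt.J17_1
import Pool.Agent.Lib.MP_01eced_nt.J17_2

namespace Pool.Agent.Lib.MP_01eced_nt

theorem covG17 : Cov (jobG T17) 972 := by
  have c := Cov.zero (jobG T17)
  have c := c.step 168 j17G_0 rfl
  have c := c.step 271 j17G_168 rfl
  have c := c.step 325 j17G_271 rfl
  have c := c.step 381 j17G_325 rfl
  have c := c.step 433 j17G_381 rfl
  have c := c.step 487 j17G_433 rfl
  have c := c.step 507 j17G_487 rfl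
  have c := c.step 551 j17G_507 rfl
  have c := c.step 567 j17G_551 rfl
  have c := c.step 610 j17G_567 rfl
  have c := c.step 622 j17G_610 rfl
  have c := c.step 655 j17G_622 rfl
  have c := c.step 682 j17G_655 rfl
  have c := c.step 717 j17G_682 rfl
  have c := c.step 736 j17G_717 rfl
  have c := c.step 771 j17G_736 rfl
  have c := c.step 792 j17G_771 rfl
  have c := c.step 816 j17G_792 rfl
  have c := c.step 828 j17G_816 rfl
  have c := c.step 842 j17G_828 rfl
  have c := c.step 865 j17G_842 rfl
  have c := c.step 888 j17G_865 rfl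
  have c := c.step 909 j17G_888 rfl
  have c := c.step 927 j17G_909 rfl
  have c := c.step 948 j17G_927 rfl
  have c := c.step 966 j17G_948 rfl
  have c := c.step 972 j17G_966 rfl
  exact c

theorem covX17 : Cov (jobX T17) 476 := by
  have c := Cov.zero (jobX T17)
  have c := c.step 33 j17X_0 rfl
  have c := c.step 90 j17X_33 rfl
  have c := c.step 163 j17X_90 rfl
  have c := c.step 241 j17X_163 rfl
  have c := c.step 279 j17X_241 rfl
  have c := c.step 348 j17X_279 rfl
  have c := c.step 422 j17X_348 rfl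
  have c := c.step 476 j17X_422 rfl
  exact c

theorem good17 (n : ℕ) (m : ℤ) (hm : ¬ (17 : ℤ) ∣ m) (h : (17 : ℤ) ∣ m ^ 2 + (12 * n + 2)) :
    ¬ Bad n :=
  of_cert okT17 okS17 (len17 ▸ covX17) covG17 n
    (cop (p := 17) (by norm_num) hm) h

end Pool.Agent.Lib.MP_01eced_nt
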