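import Pool.Agent.Lib.MP_01eced_nt.O19
import Pool.Agent.Lib.MP_01eced_nt.J19_0
import Pool.Agent.Lib.MP_01eced_nt.J19_1
import Pool.Agent.Lib.MP_01eced_nt.J19_2

namespace Pool.Agent.Lib.MP_01eced_nt

theorem covG19 : Cov (jobG T19) 1200 := by
  have c := Cov.zero (jobG T19)
  have c := c.step 186 j19G_0 rfl
  have c := c.step 303 j19G_186 rfl
  have c := c.step 363 j19G_303 rfl
  have c := c.step 423 j19G_363 rfl
  have c := c.step 438 j19G_423 rfl
  have c := c.step 492 j19G_438 rfl
  have c := c.step 543 j19G_492 rfl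
  have c := c.step 561 j19G_543 rfl
  have c := c.step 609 j19G_561 rfl
  have c := c.step 660 j19G_609 rfl
  have c := c.step 675 j19G_660 rfl
  have c := c.step 723 j19G_675 rfl
  have c := c.step 744 j19G_723 rfl
  have c := c.step 792 j19G_744 rfl
  have c := c.step 816 j19G_792 rfl
  have c := c.step 858 j19G_816 rfl
  have c := c.step 873 j19G_858 rfl
  have c := c.step 906 j19G_873 rfl
  have c := c.step 921 j19G_906 rfl
  have c := c.step 960 j19G_921 rfl
  have c := c.step 979 j19G_960 rfl
  have c := c.step 1002 j19G_979 rfl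
  have c := c.step 1029 j19G_1002 rfl
  have c := c.step 1041 j19G_1029 rfl
  have c := c.step 1056 j19G_1041 rfl
  have c := c.step 1080 j19G_1056 rfl
  have c := c.step 1101 j19G_1080 rfl
  have c := c.step 1114 j19G_1101 rfl
  have c := c.step 1141 j19G_1114 rfl
  have c := c.step 1161 j19G_1141 rfl
  have c := c.step 1173 j19G_1161 rfl
  have c := c.step 1186 j19G_1173 rfl
  have c := c.step 1200 j19G_1186 rfl
  exact c

theorem covX19 : Cov (jobX T19) 712 := by
  have c := Cov.zero (jobX T19)
  have c := c.step 35 j19X_0 rfl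
  have c := c.step 76 j19X_35 rfl
  have c := c.step 113 j19X_76 rfl
  have c := c.step 173 j19X_113 rfl
  have c := c.step 230 j19X_173 rfl
  have c := c.step 279 j19X_230 rfl
  have c := c.step 329 j19X_279 rfl
  have c := c.step 389 j19X_329 rfl
  have c := c.step 461 j19X_389 rfl
  have c := c.step 515 j19X_461 rfl
  have c := c.step 582 j19X_515 rfl
  have c := c.step 647 j19X_582 rfl
  have c := c.step 704 j19X_647 rfl
  have c := c.step 712 j19X_704 rfl
  exact c

theorem good19 (n : ℕ) (m : ℤ) (hm : ¬ (19 : ℤ) ∣ m) (h : (19 : ℤ) ∣ m ^ 2 + (12 * n + 2)) :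
    ¬ Bad n :=
  of_cert okT19 okS19 (len19 ▸ covX19) covG19 n
    (cop (p := 19) (by norm_num) hm) h

end Pool.Agent.Lib.MP_01eced_nt
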