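import Pool.Agent.Lib.MP_01eced_nt.O23
import Pool.Agent.Lib.MP_01eced_nt.J23_0
import Pool.Agent.Lib.MP_01eced_nt.J23_1
import Pool.Agent.Lib.MP_01eced_nt.J23_2
import Pool.Agent.Lib.MP_01eced_nt.J23_3

namespace Pool.Agent.Lib.MP_01eced_nt

theorem covG23 : Cov (jobG T23) 1728 := by
  have c := Cov.zero (jobG T23)
  have c := c.step 291 j23G_0 rfl
  have c := c.step 366 j23G_291 rfl
  have c := c.step 438 j23G_366 rfl
  have c := c.step 510 j23G_438 rfl
  have c := c.step 524 j23G_510 rfl
  have c := c.step 588 j23G_524 rfl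
  have c := c.step 657 j23G_588 rfl
  have c := c.step 720 j23G_657 rfl
  have c := c.step 741 j23G_720 rfl
  have c := c.step 801 j23G_741 rfl
  have c := c.step 816 j23G_801 rfl
  have c := c.step 874 j23G_816 rfl
  have c := c.step 894 j23G_874 rfl
  have c := c.step 954 j23G_894 rfl
  have c := c.step 1014 j23G_954 rfl
  have c := c.step 1032 j23G_1014 rfl
  have c := c.step 1086 j23G_1032 rfl
  have c := c.step 1107 j23G_1086 rfl
  have c := c.step 1158 j23G_1107 rfl
  have c := c.step 1179 j23G_1158 rfl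
  have c := c.step 1224 j23G_1179 rfl
  have c := c.step 1239 j23G_1224 rfl
  have c := c.step 1251 j23G_1239 rfl
  have c := c.step 1272 j23G_1251 rfl
  have c := c.step 1305 j23G_1272 rfl
  have c := c.step 1317 j23G_1305 rfl
  have c := c.step 1332 j23G_1317 rfl
  have c := c.step 1347 j23G_1332 rfl
  have c := c.step 1380 j23G_1347 rfl
  have c := c.step 1398 j23G_1380 rfl
  have c := c.step 1413 j23G_1398 rfl
  have c := c.step 1443 j23G_1413 rfl
  have c := c.step 1459 j23G_1443 rfl
  have c := c.step 1485 j23G_1459 rfl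
  have c := c.step 1518 j23G_1485 rfl
  have c := c.step 1536 j23G_1518 rfl
  have c := c.step 1560 j23G_1536 rfl
  have c := c.step 1590 j23G_1560 rfl
  have c := c.step 1605 j23G_1590 rfl
  have c := c.step 1631 j23G_1605 rfl
  have c := c.step 1659 j23G_1631 rfl
  have c := c.step 1671 j23G_1659 rfl
  have c := c.step 1686 j23G_1671 rfl
  have c := c.step 1704 j23G_1686 rfl
  have c := c.step 1719 j23G_1704 rfl
  have c := c.step 1728 j23G_1719 rfl
  exact c

theorem covX23 : Cov (jobX T23) 356 := by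
  have c := Cov.zero (jobX T23)
  have c := c.step 59 j23X_0 rfl
  have c := c.step 110 j23X_59 rfl
  have c := c.step 159 j23X_110 rfl
  have c := c.step 225 j23X_159 rfl
  have c := c.step 290 j23X_225 rfl
  have c := c.step 356 j23X_290 rfl
  exact c

theorem good23 (n : ℕ) (m : ℤ) (hm : ¬ (23 : ℤ) ∣ m) (h : (23 : ℤ) ∣ m ^ 2 + (12 * n + 2)) :
    ¬ Bad n :=
  of_cert okT23 okS23 (len23 ▸ covX23) covG23 n
    (cop (p := 23) (by norm_num) hm) h

end Pool.Agent.Lib.MP_01eced_nt
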