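import Pool.Agent.Lib.MP_01eced_nt.O29
import Pool.Agent.Lib.MP_01eced_nt.J29_0
import Pool.Agent.Lib.MP_01eced_nt.J29_1
import Pool.Agent.Lib.MP_01eced_nt.J29_2
import Pool.Agent.Lib.MP_01eced_nt.J29_3

namespace Pool.Agent.Lib.MP_01eced_nt

theorem covG29 : Cov (jobG T29) 2700 := by
  have c := Cov.zero (jobG T29)
  have c := c.step 368 j29G_0 rfl
  have c := c.step 542 j29G_368 rfl
  have c := c.step 636 j29G_542 rfl
  have c := c.step 726 j29G_636 rfl
  have c := c.step 822 j29G_726 rfl
  have c := c.step 915 j29G_822 rfl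
  have c := c.step 999 j29G_915 rfl
  have c := c.step 1022 j29G_999 rfl
  have c := c.step 1101 j29G_1022 rfl
  have c := c.step 1185 j29G_1101 rfl
  have c := c.step 1269 j29G_1185 rfl
  have c := c.step 1293 j29G_1269 rfl
  have c := c.step 1368 j29G_1293 rfl
  have c := c.step 1440 j29G_1368 rfl
  have c := c.step 1476 j29G_1440 rfl
  have c := c.step 1554 j29G_1476 rfl
  have c := c.step 1620 j29G_1554 rfl
  have c := c.step 1646 j29G_1620 rfl
  have c := c.step 1710 j29G_1646 rfl
  have c := c.step 1743 j29G_1710 rfl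
  have c := c.step 1803 j29G_1743 rfl
  have c := c.step 1826 j29G_1803 rfl
  have c := c.step 1856 j29G_1826 rfl
  have c := c.step 1917 j29G_1856 rfl
  have c := c.step 1950 j29G_1917 rfl
  have c := c.step 2014 j29G_1950 rfl
  have c := c.step 2076 j29G_2014 rfl
  have c := c.step 2091 j29G_2076 rfl
  have c := c.step 2109 j29G_2091 rfl
  have c := c.step 2136 j29G_2109 rfl
  have c := c.step 2179 j29G_2136 rfl
  have c := c.step 2211 j29G_2179 rfl
  have c := c.step 2256 j29G_2211 rfl
  have c := c.step 2280 j29G_2256 rfl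
  have c := c.step 2309 j29G_2280 rfl
  have c := c.step 2355 j29G_2309 rfl
  have c := c.step 2384 j29G_2355 rfl
  have c := c.step 2415 j29G_2384 rfl
  have c := c.step 2448 j29G_2415 rfl
  have c := c.step 2472 j29G_2448 rfl
  have c := c.step 2496 j29G_2472 rfl
  have c := c.step 2526 j29G_2496 rfl
  have c := c.step 2552 j29G_2526 rfl
  have c := c.step 2583 j29G_2552 rfl
  have c := c.step 2610 j29G_2583 rfl
  have c := c.step 2634 j29G_2610 rfl
  have c := c.step 2664 j29G_2634 rfl
  have c := c.step 2691 j29G_2664 rfl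
  have c := c.step 2700 j29G_2691 rfl
  exact c

theorem covX29 : Cov (jobX T29) 268 := by
  have c := Cov.zero (jobX T29)
  have c := c.step 65 j29X_0 rfl
  have c := c.step 141 j29X_65 rfl
  have c := c.step 214 j29X_141 rfl
  have c := c.step 268 j29X_214 rfl
  exact c

theorem good29 (n : ℕ) (m : ℤ) (hm : ¬ (29 : ℤ) ∣ m) (h : (29 : ℤ) ∣ m ^ 2 + (12 * n + 2)) :
    ¬ Bad n :=
  of_cert okT29 okS29 (len29 ▸ covX29) covG29 n
    (cop (p := 29) (by norm_num) hm) h

end Pool.Agent.Lib.MP_01eced_nt
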