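import Pool.Agent.Lib.MP_01eced_nt.O31
import Pool.Agent.Lib.MP_01eced_nt.J31_0
import Pool.Agent.Lib.MP_01eced_nt.J31_1
import Pool.Agent.Lib.MP_01eced_nt.J31_2
import Pool.Agent.Lib.MP_01eced_nt.J31_3
import Pool.Agent.Lib.MP_01eced_nt.J31_4

namespace Pool.Agent.Lib.MP_01eced_nt

theorem covG31 : Cov (jobG T31) 3072 := by
  have c := Cov.zero (jobG T31)
  have c := c.step 393 j31G_0 rfl
  have c := c.step 589 j31G_393 rfl
  have c := c.step 768 j31G_589 rfl
  have c := c.step 789 j31G_768 rfl
  have c := c.step 888 j31G_789 rfl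
  have c := c.step 984 j31G_888 rfl
  have c := c.step 1078 j31G_984 rfl
  have c := c.step 1170 j31G_1078 rfl
  have c := c.step 1254 j31G_1170 rfl
  have c := c.step 1277 j31G_1254 rfl
  have c := c.step 1360 j31G_1277 rfl
  have c := c.step 1440 j31G_1360 rfl
  have c := c.step 1462 j31G_1440 rfl
  have c := c.step 1479 j31G_1462 rfl
  have c := c.step 1557 j31G_1479 rfl
  have c := c.step 1632 j31G_1557 rfl
  have c := c.step 1662 j31G_1632 rfl
  have c := c.step 1733 j31G_1662 rfl
  have c := c.step 1761 j31G_1733 rfl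
  have c := c.step 1827 j31G_1761 rfl
  have c := c.step 1848 j31G_1827 rfl
  have c := c.step 1869 j31G_1848 rfl
  have c := c.step 1943 j31G_1869 rfl
  have c := c.step 2022 j31G_1943 rfl
  have c := c.step 2052 j31G_2022 rfl
  have c := c.step 2115 j31G_2052 rfl
  have c := c.step 2136 j31G_2115 rfl
  have c := c.step 2157 j31G_2136 rfl
  have c := c.step 2173 j31G_2157 rfl
  have c := c.step 2226 j31G_2173 rfl
  have c := c.step 2244 j31G_2226 rfl
  have c := c.step 2262 j31G_2244 rfl
  have c := c.step 2308 j31G_2262 rfl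
  have c := c.step 2334 j31G_2308 rfl
  have c := c.step 2358 j31G_2334 rfl
  have c := c.step 2412 j31G_2358 rfl
  have c := c.step 2439 j31G_2412 rfl
  have c := c.step 2472 j31G_2439 rfl
  have c := c.step 2514 j31G_2472 rfl
  have c := c.step 2541 j31G_2514 rfl
  have c := c.step 2567 j31G_2541 rfl
  have c := c.step 2613 j31G_2567 rfl
  have c := c.step 2631 j31G_2613 rfl
  have c := c.step 2655 j31G_2631 rfl
  have c := c.step 2700 j31G_2655 rfl
  have c := c.step 2724 j31G_2700 rfl
  have c := c.step 2757 j31G_2724 rfl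
  have c := c.step 2799 j31G_2757 rfl
  have c := c.step 2831 j31G_2799 rfl
  have c := c.step 2868 j31G_2831 rfl
  have c := c.step 2898 j31G_2868 rfl
  have c := c.step 2919 j31G_2898 rfl
  have c := c.step 2946 j31G_2919 rfl
  have c := c.step 2964 j31G_2946 rfl
  have c := c.step 2997 j31G_2964 rfl
  have c := c.step 3021 j31G_2997 rfl
  have c := c.step 3042 j31G_3021 rfl
  have c := c.step 3060 j31G_3042 rfl
  have c := c.step 3072 j31G_3060 rfl
  exact c

theorem covX31 : Cov (jobX T31) 316 := by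
  have c := Cov.zero (jobX T31)
  have c := c.step 53 j31X_0 rfl
  have c := c.step 114 j31X_53 rfl
  have c := c.step 179 j31X_114 rfl
  have c := c.step 235 j31X_179 rfl
  have c := c.step 315 j31X_235 rfl
  have c := c.step 316 j31X_315 rfl
  exact c

theorem good31 (n : ℕ) (m : ℤ) (hm : ¬ (31 : ℤ) ∣ m) (h : (31 : ℤ) ∣ m ^ 2 + (12 * n + 2)) :
    ¬ Bad n :=
  of_cert okT31 okS31 (len31 ▸ covX31) covG31 n
    (cop (p := 31) (by norm_num) hm) h

end Pool.Agent.Lib.MP_01eced_nt
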