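import Pool.Agent.Lib.MP_01eced_nt.O5
import Pool.Agent.Lib.MP_01eced_nt.J5_0

namespace Pool.Agent.Lib.MP_01eced_nt

theorem covG5 : Cov (jobG T5) 108 := by
  have c := Cov.zero (jobG T5)
  have c := c.step 72 j5G_0 rfl
  have c := c.step 93 j5G_72 rfl
  have c := c.step 108 j5G_93 rfl
  exact c

theorem covX5 : Cov (jobX T5) 236 := by
  have c := Cov.zero (jobX T5)
  have c := c.step 75 j5X_0 rfl
  have c := c.step 129 j5X_75 rfl
  have c := c.step 194 j5X_129 rfl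
  have c := c.step 236 j5X_194 rfl
  exact c

theorem good5 (n : ℕ) (m : ℤ) (hm : ¬ (5 : ℤ) ∣ m) (h : (5 : ℤ) ∣ m ^ 2 + (12 * n + 2)) :
    ¬ Bad n :=
  of_cert okT5 okS5 (len5 ▸ covX5) covG5 n
    (cop (p := 5) (by norm_num) hm) h

end Pool.Agent.Lib.MP_01eced_nt
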