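import Pool.Agent.Lib.MP_01eced_nt.O7
import Pool.Agent.Lib.MP_01eced_nt.J7_0

namespace Pool.Agent.Lib.MP_01eced_nt

theorem covG7 : Cov (jobG T7) 192 := by
  have c := Cov.zero (jobG T7)
  have c := c.step 101 j7G_0 rfl
  have c := c.step 133 j7G_101 rfl
  have c := c.step 159 j7G_133 rfl
  have c := c.step 183 j7G_159 rfl
  have c := c.step 192 j7G_183 rfl
  exact c

theorem covX7 : Cov (jobX T7) 168 := by
  have c := Cov.zero (jobX T7)
  have c := c.step 68 j7X_0 rfl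
  have c := c.step 135 j7X_68 rfl
  have c := c.step 168 j7X_135 rfl
  exact c

theorem good7 (n : ℕ) (m : ℤ) (hm : ¬ (7 : ℤ) ∣ m) (h : (7 : ℤ) ∣ m ^ 2 + (12 * n + 2)) :
    ¬ Bad n :=
  of_cert okT7 okS7 (len7 ▸ covX7) covG7 n
    (cop (p := 7) (by norm_num) hm) h

end Pool.Agent.Lib.MP_01eced_nt
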