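import Pool.Agent.Lib.MP_01eced_nt.Geo
import Pool.Agent.Lib.MP_01eced_nt.Defs

/-! Packed integer vectors. -/

namespace Pool.Agent.Lib.MP_01eced_nt

lemma n_MO : MO = 2 ^ 512 := by decide +kernel
lemma n_M1 : M1 = 2 ^ 512 - 1 := by decide +kernel
lemma n_TT : TT = 2 ^ 513 := by decide +kernel
lemma n_M3 : M3 = 2 ^ 1539 := by decide +kernel
lemma n_T2 : TT = 2 * MO := by decide +kernel
lemma n_T3 : M3 = TT * (TT * TT) := by decide +kernel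
lemma z_T2 : (TT : ℤ) = 2 * MO := by exact_mod_cast n_T2
lemma z_T3 : (M3 : ℤ) = TT * (TT * TT) := by exact_mod_cast n_T3
lemma z_M1 : (M1 : ℤ) + 1 = MO := by exact_mod_cast (by decide +kernel : M1 + 1 = MO)
lemma z_M2 : (M2 : ℤ) + 2 = M3 := by exact_mod_cast (by decide +kernel : M2 + 2 = M3)
lemma z_M7 : (M7 : ℤ) + 128 = M3 := by exact_mod_cast (by decide +kernel : M7 + 128 = M3)
lemma z_OF : (OF : ℤ) = MO + MO * TT + MO * (TT * TT) := by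
  exact_mod_cast (by decide +kernel : OF = MO + MO * TT + MO * (TT * TT))
lemma z_O2 : (O2 : ℤ) = 2 * OF := by exact_mod_cast (by decide +kernel : O2 = 2 * OF)
lemma z_HF : 2 * (HF : ℤ) < MO := by exact_mod_cast (by decide +kernel : 2 * HF < MO)
lemma z_BM : 6 * (BM : ℤ) * BM * BM < HF := by
  exact_mod_cast (by decide +kernel : 6 * BM * BM * BM < HF)
lemma z_BO : (BM : ℤ) < MO := by exact_mod_cast (by decide +kernel : BM < MO)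

set_option exponentiation.threshold 2000 in
lemma shl (x : ℕ) : x <<< 1539 = x * M3 := (Nat.shiftLeft_eq x 1539).trans (congrArg _ n_M3.symm)
set_option exponentiation.threshold 2000 in
lemma shr (x : ℕ) : x >>> 1539 = x / M3 :=
  (Nat.shiftRight_eq_div_pow x 1539).trans (congrArg _ n_M3.symm)

attribute [local irreducible] MO M1 TT M3 M2 M7 OF O2 HF BM CT

lemma an_t {a b : Bool} : an a b = true ↔ a = true ∧ b = true := by cases a <;> simp [an]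

lemma rec_t {a b : Bool} (h : Bool.rec (motive := fun _ => Bool) false b a = true) :
    a = true ∧ b = true := an_t.1 h

lemma oo_t {a b : Bool} : oo a b = true ↔ a = true ∨ b = true := by cases a <;> simp [oo]

def cb (u : V) (m : M) : V :=
  (u.1 * m.1.1 + u.2.1 * m.2.1.1 + u.2.2 * m.2.2.1,
    u.1 * m.1.2.1 + u.2.1 * m.2.1.2.1 + u.2.2 * m.2.2.2.1,
    u.1 * m.1.2.2 + u.2.1 * m.2.1.2.2 + u.2.2 * m.2.2.2.2)

def mm (l m : M) : M := (cb l.1 m, cb l.2.1 m, cb l.2.2 m)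

lemma dot_cb (u : V) (m : M) (v : V) : dot (cb u m) v = dot u (ap m v) := by
  simp only [dot, cb, ap]; ring

lemma ap_mm (l m : M) (v : V) : ap (mm l m) v = ap l (ap m v) := by
  simp only [mm, ap, dot_cb]

lemma dot_sc (u : V) (c : ℤ) (v : V) : dot u (sc c v) = c * dot u v := by
  simp only [dot, sc]; ring

lemma ap_sc (m : M) (c : ℤ) (v : V) : ap m (sc c v) = sc c (ap m v) := by
  simp only [ap, dot_sc]; rfl

lemma sc_sc (c d : ℤ) (v : V) : sc c (sc d v) = sc (c * d) v := by simp only [sc, mul_assoc]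

def enc (v : V) : ℤ := v.1 + v.2.1 * TT + v.2.2 * (TT * TT)

def Bd (v : V) (β : ℤ) : Prop := |v.1| ≤ β ∧ |v.2.1| ≤ β ∧ |v.2.2| ≤ β

def Pk (r : ℕ) (v : V) (β : ℤ) : Prop := (r : ℤ) ≡ enc v [ZMOD M3] ∧ Bd v β

lemma abs3 {u : V} {a b c β κ : ℤ} (ha : |a| ≤ β) (hb : |b| ≤ β) (hc : |c| ≤ β)
    (hu : |u.1| + |u.2.1| + |u.2.2| ≤ κ) : |u.1 * a + u.2.1 * b + u.2.2 * c| ≤ κ * β := by
  have h0 := (abs_nonneg a).trans ha
  have h1 := abs_add_three (u.1 * a) (u.2.1 * b) (u.2.2 * c)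
  simp only [abs_mul] at h1
  nlinarith [mul_le_mul_of_nonneg_left ha (abs_nonneg u.1), mul_le_mul_of_nonneg_right hu h0,
    mul_le_mul_of_nonneg_left hb (abs_nonneg u.2.1), mul_le_mul_of_nonneg_left hc (abs_nonneg u.2.2)]

lemma Pk.comb {r1 r2 r3 : ℕ} {m : M} {β κ f g h : ℤ} {u : V} (h1 : Pk r1 m.1 β)
    (h2 : Pk r2 m.2.1 β) (h3 : Pk r3 m.2.2 β) (hf : f ≡ u.1 [ZMOD M3]) (hg : g ≡ u.2.1 [ZMOD M3])
    (hh : h ≡ u.2.2 [ZMOD M3]) (hu : |u.1| + |u.2.1| + |u.2.2| ≤ κ) {x : ℕ}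
    (hx : (x : ℤ) = f * r1 + g * r2 + h * r3) : Pk x (cb u m) (κ * β) := by
  refine ⟨?_, abs3 h1.2.1 h2.2.1 h3.2.1 hu, abs3 h1.2.2.1 h2.2.2.1 h3.2.2.1 hu,
    abs3 h1.2.2.2 h2.2.2.2 h3.2.2.2 hu⟩
  have : enc (cb u m) = u.1 * enc m.1 + u.2.1 * enc m.2.1 + u.2.2 * enc m.2.2 := by
    simp only [enc, cb]; ring
  rw [hx, this]
  exact ((hf.mul h1.1).add (hg.mul h2.1)).add (hh.mul h3.1)

lemma Pk.mod {x : ℕ} {v : V} {β : ℤ} (h : Pk x v β) : Pk (Nat.mod x M3) v β :=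
  ⟨(Int.mod_modEq (x : ℤ) M3).trans h.1, h.2⟩

def q2 (y s : ℕ) : ℤ := (Nat.land (Nat.shiftRight y s) 7 : ℕ) - 2

def q7 (y s : ℕ) : ℤ := (Nat.land (Nat.shiftRight y s) 255 : ℕ) - 128

lemma c2_q (y s : ℕ) : (c2 y s : ℤ) ≡ q2 y s [ZMOD M3] := by
  refine (Int.modEq_iff_dvd.2 ⟨-1, ?_⟩)
  have : c2 y s = M2 + Nat.land (Nat.shiftRight y s) 7 := rfl
  rw [this, q2, ← z_M2]; push_cast; ring

lemma c7_q (y s : ℕ) : (c7 y s : ℤ) ≡ q7 y s [ZMOD M3] := by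
  refine (Int.modEq_iff_dvd.2 ⟨-1, ?_⟩)
  have : c7 y s = M7 + Nat.land (Nat.shiftRight y s) 255 := rfl
  rw [this, q7, ← z_M7]; push_cast; ring

lemma q2_le (y s : ℕ) : |q2 y s| ≤ 5 := by
  have : Nat.land (Nat.shiftRight y s) 7 ≤ 7 := Nat.and_le_right
  rw [q2, abs_le]; omega

lemma q7_le (y s : ℕ) : |q7 y s| ≤ 128 := by
  have : Nat.land (Nat.shiftRight y s) 255 ≤ 255 := Nat.and_le_right
  rw [q7, abs_le]; omega

def Bm (T : Tab) (b : ℕ) : M :=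
  ((q7 (Nat.shiftRight T.B (72 * b)) 0, q7 (Nat.shiftRight T.B (72 * b)) 8,
      q7 (Nat.shiftRight T.B (72 * b)) 16),
    (q7 (Nat.shiftRight T.B (72 * b)) 24, q7 (Nat.shiftRight T.B (72 * b)) 32,
      q7 (Nat.shiftRight T.B (72 * b)) 40),
    (q7 (Nat.shiftRight T.B (72 * b)) 48, q7 (Nat.shiftRight T.B (72 * b)) 56,
      q7 (Nat.shiftRight T.B (72 * b)) 64))

def RI (y0 : V) (r : Row) (v : V) : Prop :=
  ∃ (c : ℤ) (m : M), 0 < c ∧ Pk r.r1 m.1 r.β ∧ Pk r.r2 m.2.1 r.β ∧ Pk r.r3 m.2.2 r.β ∧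
    ap m y0 = sc c v

lemma RI.id (y : V) : RI y idR y := by
  refine ⟨1, ((1, 0, 0), (0, 1, 0), (0, 0, 1)), one_pos, ⟨?_, ?_⟩, ⟨?_, ?_⟩, ⟨?_, ?_⟩, ?_⟩ <;>
    simp [idR, enc, Bd, ap, dot, sc]

lemma ct_step : ∀ w < 4, q2 (Nat.shiftRight CT (18 * (32 + w))) 0 = -2 * ss w ∧
    q2 (Nat.shiftRight CT (18 * (32 + w))) 3 = -2 * tt w ∧
    q2 (Nat.shiftRight CT (18 * (32 + w))) 6 = -2 * (ss w * tt w) := by decide +kernel

lemma RI.step {y0 v : V} {r : Row} {w : ℕ} {η : Bool} (h : RI y0 r v) (hv : Val v w η) (b : ℕ) :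
    RI y0 (stepRow w b r) (mv w v) := by
  obtain ⟨_, β, r1, r2, r3⟩ := r
  obtain ⟨c, m, hc, h1, h2, h3, hm⟩ := h
  obtain ⟨e1, e2, e3⟩ := ct_step w hv.1
  have f := e1 ▸ c2_q (Nat.shiftRight CT (18 * (32 + w))) 0
  have g := e2 ▸ c2_q (Nat.shiftRight CT (18 * (32 + w))) 3
  have k := e3 ▸ c2_q (Nat.shiftRight CT (18 * (32 + w))) 6
  have hβ : (5 : ℤ) * β = (Nat.mul 5 β : ℕ) := by simp
  refine ⟨c * 3, mm (Sm w) m, by positivity, ?_, ?_, ?_, by rw [ap_mm, hm, ap_sc, hv.mv3, sc_sc]⟩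
  · refine Pk.mod (hβ ▸ Pk.comb (u := (Sm w).1) h1 h2 h3 (Int.ModEq.refl 1) f g ?_ (by simp))
    simp only [Sm]
    rcases ss_c w with s | s <;> rcases tt_c w with t | t <;> simp [s, t]
  · refine Pk.mod (hβ ▸ Pk.comb (u := (Sm w).2.1) h1 h2 h3 f (Int.ModEq.refl 1) k ?_ (by simp))
    simp only [Sm]
    rcases ss_c w with s | s <;> rcases tt_c w with t | t <;> simp [s, t]
  · refine Pk.mod (hβ ▸ Pk.comb (u := (Sm w).2.2) h1 h2 h3 g k (Int.ModEq.refl 1) ?_ (by simp))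
    simp only [Sm]
    rcases ss_c w with s | s <;> rcases tt_c w with t | t <;> simp [s, t]

lemma q7_sum (y a b c : ℕ) : |q7 y a| + |q7 y b| + |q7 y c| ≤ 384 := by
  linarith [q7_le y a, q7_le y b, q7_le y c]

lemma RI.add {T : Tab} {y0 v v' : V} {r : Row} {b : ℕ} (h : RI y0 r v) (hp : 0 < T.p)
    (hv : ap (Bm T b) v = sc T.p v') : RI y0 (addRow T b r) v' := by
  obtain ⟨_, β, r1, r2, r3⟩ := r
  obtain ⟨c, m, hc, h1, h2, h3, hm⟩ := h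
  have hβ : (384 : ℤ) * β = (Nat.mul 384 β : ℕ) := by simp
  refine ⟨c * T.p, mm (Bm T b) m, by positivity, ?_, ?_, ?_, by rw [ap_mm, hm, ap_sc, hv, sc_sc]⟩
  · exact Pk.mod (hβ ▸ Pk.comb (u := (Bm T b).1) h1 h2 h3 (c7_q _ _) (c7_q _ _) (c7_q _ _)
      (q7_sum _ _ _ _) (by simp [sm]))
  · exact Pk.mod (hβ ▸ Pk.comb (u := (Bm T b).2.1) h1 h2 h3 (c7_q _ _) (c7_q _ _) (c7_q _ _)
      (q7_sum _ _ _ _) (by simp [sm]))
  · exact Pk.mod (hβ ▸ Pk.comb (u := (Bm T b).2.2) h1 h2 h3 (c7_q _ _) (c7_q _ _) (c7_q _ _)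
      (q7_sum _ _ _ _) (by simp [sm]))

def CI (y0 : V) (cs : ℕ) : Prop :=
  ∀ i k, getC cs i k = true → ∃ F : V, Bd F BM ∧ 0 < dot F y0 ∧ ∃ a b c : ℕ, k a b c = true ∧
    (a : ℤ) ≡ F.1 [ZMOD MO] ∧ (b : ℤ) ≡ F.2.1 [ZMOD MO] ∧ (c : ℤ) ≡ F.2.2 [ZMOD MO]

lemma getC_eq (cs i : ℕ) (k : ℕ → ℕ → ℕ → Bool) : getC cs i k = an (Nat.ble 1 (cs >>> (1539 * i)))
    (k (cs >>> (1539 * i) % MO) (cs >>> (1539 * i) / TT % MO)
      (cs >>> (1539 * i) / TT / TT % MO)) := by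
  have e : ∀ y : ℕ, y % MO = y &&& M1 := fun y => by
    rw [n_MO, n_M1, Nat.and_two_pow_sub_one_eq_mod]
  have d : ∀ y : ℕ, y / TT = y >>> 513 := fun y => by rw [n_TT, Nat.shiftRight_eq_div_pow]
  have d2 : ∀ y : ℕ, y / TT / TT = y >>> 1026 := fun y => by rw [d, d, ← Nat.shiftRight_add]
  rw [e, e, e, d2, d]
  unfold getC an
  rfl

lemma CI.zero (y0 : V) : CI y0 0 := by
  intro i k h
  rw [getC_eq, an_t] at h
  simp at h

lemma fmod (A y : ℕ) (a : ℤ) (h : (A : ℤ) = a + MO) :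
    (((A + TT * y) % MO : ℕ) : ℤ) ≡ a [ZMOD MO] := by
  rw [Int.natCast_mod]
  refine (Int.mod_modEq _ _).trans (Int.modEq_iff_dvd.2 ⟨-(1 + 2 * y), ?_⟩)
  push_cast
  rw [h, z_T2]; ring

lemma CI.push {y0 F : V} {cs v : ℕ} (h : CI y0 cs) (hB : Bd F BM) (hF : 0 < dot F y0)
    (hv : (v : ℤ) = enc F + OF) : CI y0 (push cs v) := by
  have hO := z_BO
  have hT := z_T2
  obtain ⟨b1, b2, b3⟩ := id hB
  rw [abs_le] at b1 b2 b3
  obtain ⟨A, hA⟩ := Int.eq_ofNat_of_zero_le (show 0 ≤ F.1 + MO by omega)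
  obtain ⟨B, hB'⟩ := Int.eq_ofNat_of_zero_le (show 0 ≤ F.2.1 + MO by omega)
  obtain ⟨C, hC⟩ := Int.eq_ofNat_of_zero_le (show 0 ≤ F.2.2 + MO by omega)
  have e : Pool.Agent.Lib.MP_01eced_nt.push cs v = A + TT * (B + TT * (C + TT * cs)) := by
    show cs <<< 1539 + v = _
    rw [shl]
    zify
    rw [hv, enc, z_OF, z_T3, ← hA, ← hB', ← hC]; ring
  have dv : ∀ a y : ℕ, a < TT → (a + TT * y) / TT = y := fun a y ha => by
    rw [Nat.add_mul_div_left _ _ (by omega), Nat.div_eq_of_lt ha, zero_add]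
  have d1 := dv A (B + TT * (C + TT * cs)) (by omega)
  have d2 := dv B (C + TT * cs) (by omega)
  have d3 := dv C cs (by omega)
  intro i k hk
  rw [getC_eq, e] at hk
  cases i with
  | zero =>
    rw [mul_zero, Nat.shiftRight_zero, d1, d2, an_t] at hk
    exact ⟨F, hB, hF, _, _, _, hk.2, fmod _ _ _ hA.symm, fmod _ _ _ hB'.symm, fmod _ _ _ hC.symm⟩
  | succ i =>
    apply h i k
    rw [show 1539 * (i + 1) = 1539 + 1539 * i by ring, Nat.shiftRight_add, shr, n_T3,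
      ← Nat.div_div_eq_div_mul, ← Nat.div_div_eq_div_mul, d1, d2, d3] at hk
    rwa [getC_eq]

lemma enc_bd {F : V} (hB : Bd F BM) : 0 ≤ enc F + OF ∧ enc F + OF ≤ 2 * OF ∧ enc F + OF < M3 := by
  have hO := z_BO
  have hT := z_T2
  obtain ⟨b1, b2, b3⟩ := hB
  rw [abs_le] at b1 b2 b3
  have t0 : (0 : ℤ) ≤ TT := by positivity
  have t1 : (0 : ℤ) ≤ TT * TT := by positivity
  rw [enc, z_OF, z_T3]
  refine ⟨?_, ?_, ?_⟩
  · nlinarith [mul_nonneg (show 0 ≤ F.2.1 + MO by omega) t0,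
      mul_nonneg (show 0 ≤ F.2.2 + MO by omega) t1]
  · nlinarith [mul_nonneg (show 0 ≤ MO - F.2.1 by omega) t0,
      mul_nonneg (show 0 ≤ MO - F.2.2 by omega) t1]
  · nlinarith [mul_nonneg (show 0 ≤ TT - 1 - (F.2.1 + MO) by omega) t0,
      mul_nonneg (show 0 ≤ TT - 1 - (F.2.2 + MO) by omega) t1]

lemma nrm_eq {r1 r2 r3 β : ℕ} {m : M} (h1 : Pk r1 m.1 β) (h2 : Pk r2 m.2.1 β) (h3 : Pk r3 m.2.2 β)
    (hβ : 15 * β ≤ BM) (y s : ℕ) : Bd (cb (q2 y s, q2 y (s + 3), q2 y (s + 6)) m) BM ∧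
      (nrm y s r1 r2 r3 : ℤ) = enc (cb (q2 y s, q2 y (s + 3), q2 y (s + 6)) m) + OF := by
  obtain ⟨k1, k2⟩ := Pk.comb (u := (q2 y s, q2 y (s + 3), q2 y (s + 6))) (κ := 15)
    (x := sm (c2 y s) (c2 y (s + 3)) (c2 y (s + 6)) r1 r2 r3) h1 h2 h3 (c2_q _ _) (c2_q _ _)
    (c2_q _ _) (by linarith [q2_le y s, q2_le y (s + 3), q2_le y (s + 6)]) (by simp [sm])
  have hβ' : (15 : ℤ) * β ≤ BM := by exact_mod_cast hβ
  have hB : Bd _ BM := ⟨k2.1.trans hβ', k2.2.1.trans hβ', k2.2.2.trans hβ'⟩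
  refine ⟨hB, ?_⟩
  obtain ⟨e1, -, e3⟩ := enc_bd hB
  rw [← Int.emod_eq_of_lt e1 e3]
  show (((sm (c2 y s) (c2 y (s + 3)) (c2 y (s + 6)) r1 r2 r3 + OF) % M3 : ℕ) : ℤ) = _
  push_cast
  exact k1.add_right _

lemma small {x : ℕ} {δ : ℤ} (h : (x : ℤ) ≡ δ [ZMOD MO]) (hb : |δ| ≤ HF)
    (hx : Nat.ble (Nat.mod x MO) HF = true) : 0 ≤ δ := by
  by_contra hn
  have h1 : x % MO ≤ HF := Nat.le_of_ble_eq_true hx
  have h2 := z_HF
  rw [abs_le] at hb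
  have h3 : (x : ℤ) % MO = δ + MO := by
    rw [h, ← Int.add_emod_right, Int.emod_eq_of_lt (by omega) (by omega)]
  zify at h1
  omega

lemma det_bd {a b c : V} (ha : Bd a BM) (hb : Bd b BM) (hc : Bd c BM) :
    |dot a (cr b c)| < HF := by
  have k : ∀ {p q r s : ℤ}, |p| ≤ BM → |q| ≤ BM → |r| ≤ BM → |s| ≤ BM →
      |p * q - r * s| ≤ 2 * BM * BM := fun {p q r s} hp hq hr hs => by
    have := abs_sub (p * q) (r * s)
    rw [abs_mul, abs_mul] at this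
    linarith [mul_le_mul hp hq (abs_nonneg _) (by positivity),
      mul_le_mul hr hs (abs_nonneg _) (by positivity)]
  have := abs3 (u := a) (κ := 3 * BM) (k hb.2.1 hc.2.2 hb.2.2 hc.2.1) (k hb.2.2 hc.1 hb.1 hc.2.2)
    (k hb.1 hc.2.1 hb.2.1 hc.1) (by linarith [ha.1, ha.2.1, ha.2.2])
  simp only [dot, cr]
  linarith [z_BM]

lemma m1 : (M1 : ℤ) ≡ -1 [ZMOD MO] := Int.modEq_iff_dvd.2 ⟨-1, by rw [← z_M1]; ring⟩

lemma crm {p q r s : ℕ} {P Q R S : ℤ} (hp : (p : ℤ) ≡ P [ZMOD MO]) (hq : (q : ℤ) ≡ Q [ZMOD MO])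
    (hr : (r : ℤ) ≡ R [ZMOD MO]) (hs : (s : ℤ) ≡ S [ZMOD MO]) :
    ((Nat.mod (Nat.add (Nat.mul p q) (Nat.mul M1 (Nat.mul r s))) MO : ℕ) : ℤ)
      ≡ P * Q - R * S [ZMOD MO] := by
  show (((p * q + M1 * (r * s)) % MO : ℕ) : ℤ) ≡ _ [ZMOD _]
  push_cast
  refine (Int.mod_modEq _ _).trans ?_
  rw [show P * Q - R * S = P * Q + -1 * (R * S) by ring]
  exact (hp.mul hq).add (m1.mul (hr.mul hs))

lemma dtm {a b c d e f : ℕ} {u v : V} (ha : (a : ℤ) ≡ u.1 [ZMOD MO]) (hb : (b : ℤ) ≡ u.2.1 [ZMOD MO])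
    (hc : (c : ℤ) ≡ u.2.2 [ZMOD MO]) (hd : (d : ℤ) ≡ v.1 [ZMOD MO])
    (he : (e : ℤ) ≡ v.2.1 [ZMOD MO]) (hf : (f : ℤ) ≡ v.2.2 [ZMOD MO]) :
    ((Nat.add (Nat.add (Nat.mul a d) (Nat.mul b e)) (Nat.mul c f) : ℕ) : ℤ) ≡ dot u v [ZMOD MO] := by
  show ((a * d + b * e + c * f : ℕ) : ℤ) ≡ _ [ZMOD _]
  push_cast
  exact ((ha.mul hd).add (hb.mul he)).add (hc.mul hf)

lemma ngm {x : ℕ} {δ : ℤ} (h : (x : ℤ) ≡ δ [ZMOD MO]) :
    ((Nat.mul M1 x : ℕ) : ℤ) ≡ -δ [ZMOD MO] := by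
  show ((M1 * x : ℕ) : ℤ) ≡ _ [ZMOD _]
  push_cast
  rw [← neg_one_mul δ]
  exact m1.mul h

lemma sbm {x : ℕ} {δ : ℤ} (h : (x : ℤ) ≡ δ [ZMOD MO]) :
    ((Nat.add M1 x : ℕ) : ℤ) ≡ -1 + δ [ZMOD MO] := by
  show ((M1 + x : ℕ) : ℤ) ≡ _ [ZMOD _]
  push_cast
  exact m1.add h

lemma rec4 {a b c d : Bool} (h : Bool.rec (motive := fun _ => Bool) false
    (Bool.rec (motive := fun _ => Bool) false (Bool.rec (motive := fun _ => Bool) false d c) b) a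
      = true) : a = true ∧ b = true ∧ c = true ∧ d = true := by
  cases a <;> cases b <;> cases c <;> simp_all

lemma CI.leaf {y0 : V} {cs x : ℕ} (h : CI y0 cs) : nLeaf cs x ≠ true := by
  intro hl
  obtain ⟨a, ba, pa, a1, a2, a3, hl, ea1, ea2, ea3⟩ := h _ _ hl
  obtain ⟨b, bb, pb, b1, b2, b3, hl, eb1, eb2, eb3⟩ := h _ _ hl
  obtain ⟨c, bc, pc, c1, c2, c3, hl, ec1, ec2, ec3⟩ := h _ _ hl
  obtain ⟨d, bd, pd, d1, d2, d3, hl, ed1, ed2, ed3⟩ := h _ _ hl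
  unfold leaf4 at hl
  obtain ⟨l1, l2, l3, l4⟩ := rec4 hl
  have f1 := crm ec2 ed3 ec3 ed2
  have f2 := crm ec3 ed1 ec1 ed3
  have f3 := crm ec1 ed2 ec2 ed1
  have e1 := crm ea2 eb3 ea3 eb2
  have e2 := crm ea3 eb1 ea1 eb3
  have e3 := crm ea1 eb2 ea2 eb1
  have k1 := small (sbm (dtm (v := cr c d) eb1 eb2 eb3 f1 f2 f3))
    (by have := det_bd bb bc bd; rw [abs_lt] at this; rw [abs_le]; omega) l1
  have k2 := small (ngm (dtm (v := cr c d) ea1 ea2 ea3 f1 f2 f3))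
    (by rw [abs_neg]; exact (det_bd ba bc bd).le) l2
  have k3 := small (dtm (v := cr a b) ed1 ed2 ed3 e1 e2 e3) (det_bd bd ba bb).le l3
  have k4 := small (ngm (dtm (v := cr a b) ec1 ec2 ec3 e1 e2 e3))
    (by rw [abs_neg]; exact (det_bd bc ba bb).le) l4
  have id : dot b (cr c d) * dot a y0 + -dot a (cr c d) * dot b y0 + dot d (cr a b) * dot c y0
      + -dot c (cr a b) * dot d y0 = 0 := by simp only [dot, cr]; ring
  linarith [mul_pos (show 0 < dot b (cr c d) by omega) pa, mul_nonneg k2 pb.le,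
    mul_nonneg k3 pc.le, mul_nonneg k4 pd.le]

end Pool.Agent.Lib.MP_01eced_nt
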