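import Pool.Agent.Lib.MP_01eced_nt.Tb

/-! Soundness of the checker. -/

namespace Pool.Agent.Lib.MP_01eced_nt

attribute [local irreducible] MO M1 TT M3 M2 M7 OF O2 HF BM CT

def Hb (T : Tab) (n : ℤ) : List ℕ → V → Bool → Prop
  | [], _, _ => True
  | c :: H, y, η => ∃ y', A n y' ∧ Q y' ∧ Val y' (c % 4) (!η) ∧ y = mv (c % 4) y' ∧
      Mv T (c / 4 % 64) y' ∧ Mv T (c / 256) y' ∧ Hb T n H y' (!η)

def Fw (ex : ℕ) : List ℕ → V → Bool → Prop
  | [], y, η => ∃ w, Val y w η ∧ w ≠ ex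
  | v :: u, y, η => Val y v η ∧ Fw ex u (mv v y) (!η)

def Ch (T : Tab) (y0 y : V) : List Row → V → Prop
  | [], v => v = y
  | r :: t, v => ∃ v', Ch T y0 y t v' ∧ r.b ≤ T.p ∧ ap (Bm T r.b) v' = sc T.p v ∧ RI y0 r v

def Hit (T : Tab) (n : ℤ) (rk : ℕ) : Prop :=
  ∃ s ∈ T.S, s.rk < rk ∧ ∃ y, A n y ∧ Q y ∧ Hb T n s.H y s.eta

lemma split_s {x : ℕ} {k : ℕ → ℕ → Bool} (h : split x k = true) : ∃ a b, k a b = true := by
  unfold split at h
  exact ⟨_, _, h⟩

lemma loop_s {f : ℕ → ℕ → Bool} (n : ℕ) : ∀ x, loop f n x = true → ∀ i < n, ∃ c, f i c = true := by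
  induction n with
  | zero => intro x _ i hi; omega
  | succ n ih =>
    intro x h i hi
    obtain ⟨c, r, h⟩ := split_s (k := fun c r => an (f n c) (loop f n r)) h
    rcases Nat.lt_succ_iff_lt_or_eq.1 hi with e | rfl
    · exact ih r (an_t.1 h).2 i e
    · exact ⟨c, (an_t.1 h).1⟩

lemma getL_s {α : Type} (l : List α) (k : α → Bool) :
    ∀ i, getL l k i = true → ∃ a, l[i]? = some a ∧ k a = true := by
  induction l with
  | nil => intro i h; cases h
  | cons a t ih =>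
    intro i h
    cases i with
    | zero => exact ⟨a, rfl, h⟩
    | succ i => exact ih i h

lemma Hb.pre {T : Tab} {n : ℤ} (a : List ℕ) :
    ∀ b y η, isPre a b = true → Hb T n b y η → Hb T n a y η := by
  induction a with
  | nil => intros; trivial
  | cons c a ih =>
    intro b y η h g
    cases b with
    | nil => cases h
    | cons d b =>
      obtain ⟨h1, h2⟩ := an_t.1 (show an (Nat.beq c d) (isPre a b) = true from h)
      obtain rfl := Nat.eq_of_beq_eq_true h1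
      obtain ⟨y', g1, g2, g3, g4, g5, g6, g7⟩ := g
      exact ⟨y', g1, g2, g3, g4, g5, g6, ih _ _ _ h2 g7⟩

lemma stepRow_b (w b : ℕ) (r : Row) : (stepRow w b r).b = b := by cases r; rfl

lemma addRow_b (T : Tab) (b : ℕ) (r : Row) : (addRow T b r).b = b := by cases r; rfl

section Chain

variable {T : Tab} {n : ℤ} {y0 y : V} {w : ℕ} {η : Bool}

lemma Ch.val (hT : OkT T) (a : A n y) (g : Val y w η) (l : List Row) :
    ∀ v, Ch T y0 y l v → A n v ∧ Val v (wt T w l) (et T η l) := by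
  induction l with
  | nil => rintro v rfl; exact ⟨a, g⟩
  | cons r t ih =>
    rintro v ⟨v', h1, h2, h3, -⟩
    exact ⟨hT.rowA h2 h3 (ih _ h1).1, hT.rowV h2 h3 (ih _ h1).2⟩

lemma Ch.top {m : Row} (g : RI y0 m y) {l : List Row} {v : V} (h : Ch T y0 y l v) :
    RI y0 (top m l) v := by
  cases l with
  | nil => cases h; exact g
  | cons r t => obtain ⟨_, -, -, -, h⟩ := h; exact h

lemma Ch.drop {l : List Row} (h : ∃ v, Ch T y0 y l v) (j : ℕ) : ∃ v, Ch T y0 y (dropL l j) v := by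
  induction j with
  | zero => exact h
  | succ j ih =>
    show ∃ v, Ch T y0 y (tl (dropL l j)) v
    generalize dropL l j = l' at ih
    cases l' with
    | nil => exact ih
    | cons r t => obtain ⟨_, v, h, -⟩ := ih; exact ⟨v, h⟩

lemma Ch.last (l : List Row) : ∀ v, Ch T y0 y l v → l ≠ [] → Mv T (lastb l) y := by
  induction l with
  | nil => intro _ _ h; exact absurd rfl h
  | cons r t ih =>
    rintro v ⟨v', h1, h2, h3, -⟩ -
    cases t with
    | nil => cases h1; exact ⟨h2, v, h3⟩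
    | cons r' t => exact ih v' h1 (List.cons_ne_nil _ _)

lemma Ch.adv (hT : OkT T) (a : A n y) (g : Val y w η) (l : List Row) :
    ∀ v, Ch T y0 y l v → Ch T y0 (mv w y) (advC T w l) (mv (wt T w l) v) := by
  induction l with
  | nil => rintro v rfl; rfl
  | cons r t ih =>
    rintro v ⟨v', h1, h2, h3, h4⟩
    have k := (Ch.val hT a g t v' h1).2
    refine ⟨_, ih v' h1, ?_, ?_, h4.step (hT.rowV h2 h3 k) _⟩ <;> rw [stepRow_b]
    exacts [(hT.rowS h2 h3 k).1, (hT.rowS h2 h3 k).2]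

lemma advC_ne {l : List Row} (h : l ≠ []) : advC T w l ≠ [] := by
  cases l with
  | nil => exact absurd rfl h
  | cons r t => exact List.cons_ne_nil _ _

end Chain

structure Inv (T : Tab) (n : ℤ) (η : Bool) (w : ℕ) (m : Row) (U D : List Row) (cs : ℕ)
    (hs fw : List ℕ) (ex : ℕ) (y0 y : V) : Prop where
  a : A n y
  q : Q y
  v : Val y w η
  r : RI y0 m y
  u : ∃ u, Ch T y0 y U u
  d : ∃ d, Ch T y0 y D d
  un : U ≠ []
  dn : D ≠ []
  c : CI y0 cs
  h : Hb T n hs y η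
  f : Fw ex fw (mv w y) (!η)

def Snd (T : Tab) (n : ℤ) (rk : ℕ) (K : KT) : Prop :=
  ∀ η w m U D cs hs fw ex x y0 y, Inv T n η w m U D cs hs fw ex y0 y →
    K η w m U D cs hs fw ex x = true → Hit T n rk

lemma Inv.hist {T : Tab} (hT : OkT T) {n : ℤ} {η w m U D cs hs fw ex y0 y}
    (I : Inv T n η w m U D cs hs fw ex y0 y) :
    Hb T n (mkc w (lastb U) (lastb D) :: hs) (mv w y) (!η) := by
  obtain ⟨u, hu⟩ := I.u
  obtain ⟨d, hd⟩ := I.d
  obtain ⟨e, k1, k2⟩ := mkc_s hT I.v.1 (Ch.last _ _ hu I.un) (Ch.last _ _ hd I.dn)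
  refine ⟨y, I.a, I.q, ?_, ?_, k1, k2, ?_⟩
  · rw [e, Bool.not_not]; exact I.v
  · rw [e]
  · rw [Bool.not_not]; exact I.h

lemma ct_cl : ∀ η : Bool, ∀ w < 4, ∀ o < 4,
    (q2 (Nat.shiftRight CT (cix η w o)) 0, q2 (Nat.shiftRight CT (cix η w o)) 3,
      q2 (Nat.shiftRight CT (cix η w o)) 6) = (if o < 2 then fa η w o else fc w o) ∧
    (q2 (Nat.shiftRight CT (cix η w o)) 9, q2 (Nat.shiftRight CT (cix η w o)) 12,
      q2 (Nat.shiftRight CT (cix η w o)) 15) = (if o < 2 then fc w o else fa η w o) := by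
  decide +kernel

lemma brAt_s {y0 v : V} {r : Row} {y x cs : ℕ} {k : ℕ → ℕ → Bool} (g : RI y0 r v) (c : CI y0 cs)
    (h0 : dot (q2 y 0, q2 y 3, q2 y 6) v ≠ 0)
    (h1 : 0 < dot (q2 y 0, q2 y 3, q2 y 6) v ∨ 0 < dot (q2 y 9, q2 y 12, q2 y 15) v)
    (h : brAt y r x k cs = true) : ∃ cs' x', CI y0 cs' ∧ k cs' x' = true := by
  obtain ⟨b, β, r1, r2, r3⟩ := r
  obtain ⟨e, m, he, g1, g2, g3, hm⟩ := g
  obtain ⟨hβ, h⟩ := rec_t h
  obtain ⟨x1, x2, h⟩ := split_s h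
  obtain ⟨k1, k2⟩ := rec_t h
  obtain ⟨b1, e1⟩ := nrm_eq g1 g2 g3 (Nat.le_of_ble_eq_true hβ) y 0
  obtain ⟨b2, e2⟩ := nrm_eq g1 g2 g3 (Nat.le_of_ble_eq_true hβ) y 9
  have dt : ∀ F : V, dot (cb F m) y0 = e * dot F v := fun F => by rw [dot_cb, hm, dot_sc]
  by_cases p : 0 < dot (q2 y 0, q2 y 3, q2 y 6) v
  · exact ⟨_, _, c.push b1 (by rw [dt]; exact mul_pos he p) e1, k1⟩
  · refine ⟨_, _, CI.push (CI.push (F := sc (-1) (cb (q2 y 0, q2 y 3, q2 y 6) m)) c ?_ ?_ ?_) b2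
      (by rw [dt]; exact mul_pos he (h1.resolve_left p)) e2, k2⟩
    · simpa [Bd, sc] using b1
    · have := dt (q2 y 0, q2 y 3, q2 y 6)
      have h2 : e * dot (q2 y 0, q2 y 3, q2 y 6) v < 0 := mul_neg_of_pos_of_neg he (by omega)
      simp only [dot, sc] at *
      linarith
    · have := (enc_bd b1).2.1
      rw [← e1, ← z_O2] at this
      show ((O2 - nrm y 0 r1 r2 r3 : ℕ) : ℤ) = _
      rw [Nat.cast_sub (by exact_mod_cast this), e1, z_O2]
      simp only [enc, sc]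
      ring

section Nodes

variable {T : Tab} (hT : OkT T) {n : ℤ} {rk : ℕ} {K : KT}

include hT

lemma nBr_s (hb : Bad n) (hK : Snd T n rk K) : Snd T n rk (nBr T K) := by
  intro η w m U D cs hs fw ex x y0 y I h
  unfold nBr at h
  have hl : ∃ v, Ch T y0 y (side (Nat.land x 63) U D) v := by
    unfold side
    cases Nat.beq (Nat.land (Nat.land x 63) 1) 0
    exacts [I.d, I.u]
  obtain ⟨v, hv⟩ := Ch.drop hl (fld (Nat.land x 63) 1 7)
  obtain ⟨a, g⟩ := Ch.val hT I.a I.v _ _ hv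
  have ho : fld (Nat.land x 63) 4 3 < 4 := Nat.lt_succ_of_le Nat.and_le_right
  obtain ⟨e1, e2⟩ := ct_cl (et T η (dropL (side (Nat.land x 63) U D) (fld (Nat.land x 63) 1 7)))
    _ g.1 _ ho
  obtain ⟨c1, c2, c3⟩ := hb.clause a g (fld (Nat.land x 63) 4 3)
  obtain ⟨cs', x', c, h⟩ := brAt_s (Ch.top I.r hv) I.c (by rw [e1]; split_ifs; exacts [c1, c2])
    (by rw [e1, e2]; split_ifs; exacts [c3, c3.symm]) h
  exact hK _ _ _ _ _ _ _ _ _ _ _ _ { I with c := c } h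

lemma nAdv_s (hK : Snd T n rk K) : Snd T n rk (nAdv T K) := by
  intro η w m U D cs hs fw ex x y0 y I h
  obtain ⟨u, hu⟩ := I.u
  obtain ⟨d, hd⟩ := I.d
  have key : ∀ v fw' ex', Val (mv w y) v (!η) → Fw ex' fw' (mv v (mv w y)) (!(!η)) →
      Inv T n (!η) v (stepRow w 0 m) (advC T w U) (advC T w D) cs
        (mkc w (lastb U) (lastb D) :: hs) fw' ex' y0 (mv w y) := fun v fw' ex' g f =>
    ⟨I.a.step I.v, I.q.step I.v, g, I.r.step I.v _, ⟨_, Ch.adv hT I.a I.v _ _ hu⟩,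
      ⟨_, Ch.adv hT I.a I.v _ _ hd⟩, advC_ne I.un, advC_ne I.dn, I.c, I.hist hT, f⟩
  have fN : ∀ f : Bool → Bool, forceN η f = f (!η) := fun f => by cases η <;> rfl
  unfold nAdv at h
  rw [fN] at h
  cases fw with
  | cons v fw => exact hK _ _ _ _ _ _ _ _ _ _ _ _ (key v fw ex I.f.1 I.f.2) h
  | nil =>
    obtain ⟨v, g, hv⟩ := I.f
    obtain ⟨x1, x', h⟩ := split_s h
    obtain ⟨x2, x3, h⟩ := split_s h
    obtain ⟨h1, h⟩ := an_t.1 h
    obtain ⟨h2, h3⟩ := an_t.1 h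
    have hne := I.v.back.ne g
    have l1 := I.v.1
    have l2 := g.1
    have fin : ∀ j (k : ℕ → Bool), nx w j ex k = true → (w + j) % 4 = v → k v = true := by
      intro j k h e
      have e' : Nat.land (Nat.add w j) 3 = v := e ▸ Nat.and_two_pow_sub_one_eq_mod (w + j) 2
      unfold nx at h
      rcases oo_t.1 h with h | h
      · exact absurd (e' ▸ Nat.eq_of_beq_eq_true h) hv
      · exact e' ▸ h
    obtain ⟨v', g'⟩ := ((I.a.step I.v).step g).ex (!(!η))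
    have J := key v [] 4 g ⟨v', g', g'.1.ne⟩
    rcases (by omega : (w + 1) % 4 = v ∨ (w + 2) % 4 = v ∨ (w + 3) % 4 = v) with e | e | e
    · have := fin _ _ h1 e
      exact hK _ _ _ _ _ _ _ _ _ _ _ _ J this
    · have := fin _ _ h2 e
      exact hK _ _ _ _ _ _ _ _ _ _ _ _ J this
    · have := fin _ _ h3 e
      exact hK _ _ _ _ _ _ _ _ _ _ _ _ J this

variable (h2 : ∀ v, A n v → ∃ lo hi, lo < hi ∧ Mv T lo v ∧ Mv T hi v)

include h2

lemma grow_s {y0 y : V} {w : ℕ} {η : Bool} (a : A n y) (g : Val y w η) {l : List Row} {x : ℕ}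
    {k : List Row → ℕ → Bool} (hl : ∃ v, Ch T y0 y l v) (h : grow T l x k = true) :
    ∃ l' x', (∃ v, Ch T y0 y l' v) ∧ l' ≠ [] ∧ k l' x' = true := by
  obtain ⟨v, hv⟩ := hl
  cases l with
  | nil => cases h
  | cons r t =>
    obtain ⟨i, hi, ⟨h3, v', h4⟩⟩ : ∃ i, i ≠ ti T r.b ∧ Mv T i v := by
      obtain ⟨lo, hi, e, k1, k2⟩ := h2 v (Ch.val hT a g _ _ hv).1
      by_cases c : lo = ti T r.b
      exacts [⟨hi, by omega, k2⟩, ⟨lo, c, k1⟩]
    obtain ⟨c, h⟩ := loop_s (f := fun i c => oo (Nat.beq i (ti T r.b)) (k (addRow T i r :: r :: t) c))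
      (Nat.succ T.p) x h i (Nat.lt_succ_of_le h3)
    refine ⟨addRow T i r :: r :: t, c, ⟨v', v, hv, ?_, ?_, ?_⟩, List.cons_ne_nil _ _,
      (oo_t.1 h).resolve_left fun e => hi (Nat.eq_of_beq_eq_true e)⟩
    · rwa [addRow_b]
    · rwa [addRow_b]
    · obtain ⟨_, -, -, -, h5⟩ := hv
      exact h5.add hT.pos h4

lemma nRow_s (hK : Snd T n rk K) : Snd T n rk (nRow T K) := by
  intro η w m U D cs hs fw ex x y0 y I h
  unfold nRow at h
  generalize Nat.beq _ _ = b at h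
  cases b
  · obtain ⟨l, x', k1, k2, h⟩ := grow_s hT h2 I.a I.v I.d h
    exact hK _ _ _ _ _ _ _ _ _ _ _ _ { I with d := k1, dn := k2 } h
  · obtain ⟨l, x', k1, k2, h⟩ := grow_s hT h2 I.a I.v I.u h
    exact hK _ _ _ _ _ _ _ _ _ _ _ _ { I with u := k1, un := k2 } h

omit h2 in
lemma nHit_s : Snd T n rk (nHit T rk) := by
  intro η w m U D cs hs fw ex x y0 y I h
  obtain ⟨s, e, h⟩ := getL_s _ _ _ h
  obtain ⟨k1, h⟩ := an_t.1 h
  obtain ⟨k2, k3⟩ := an_t.1 h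
  have e' : s.eta = !η := by revert k2; cases s.eta <;> cases η <;> simp
  exact ⟨s, List.mem_of_getElem? e, Nat.blt_eq.mp k1, _, I.a.step I.v, I.q.step I.v,
    e' ▸ Hb.pre _ _ _ _ k3 (I.hist hT)⟩

lemma chk_s (hb : Bad n) (k : ℕ) : Snd T n rk (chk T rk k) := by
  induction k with
  | zero => intro η w m U D cs hs fw ex x y0 y I h; cases h
  | succ k ih =>
    intro η w m U D cs hs fw ex x y0 y I h
    unfold chk at h ih
    dsimp only at h
    generalize Nat.land _ _ = t at h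
    rcases t with _ | _ | _ | _ | t
    · exact absurd h I.c.leaf
    · exact nBr_s hT hb ih _ _ _ _ _ _ _ _ _ _ _ _ I h
    · exact nAdv_s hT ih _ _ _ _ _ _ _ _ _ _ _ _ I h
    · exact nRow_s hT h2 ih _ _ _ _ _ _ _ _ _ _ _ _ I h
    · exact nHit_s hT _ _ _ _ _ _ _ _ _ _ _ _ I h

lemma start_s (hb : Bad n) {η : Bool} {w a b ex x : ℕ} {fw : List ℕ} {y : V} (ha : A n y) (q : Q y)
    (g : Val y w η) (m1 : Mv T a y) (m2 : Mv T b y) (f : Fw ex fw (mv w y) (!η))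
    (h : start T rk η w a b fw ex x = true) : Hit T n rk := by
  have key : ∀ a, Mv T a y → ∃ v, Ch T y y [addRow T a idR] v := by
    rintro a ⟨k1, v, k2⟩
    refine ⟨v, y, rfl, ?_, ?_, (RI.id y).add hT.pos k2⟩ <;> rwa [addRow_b]
  exact chk_s hT h2 hb _ _ _ _ _ _ _ [] _ _ _ y y ⟨ha, q, g, RI.id y, key a m1, key b m2,
    List.cons_ne_nil _ _, List.cons_ne_nil _ _, CI.zero y, trivial, f⟩ h

lemma back_s (hb : Bad n) {ex x : ℕ} (H : List ℕ) : ∀ k u η y, Hb T n H y η → Fw ex u y η →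
    back T rk ex x H k u η = true → Hit T n rk := by
  induction H with
  | nil => intro k u η y _ _ h; cases h
  | cons c H ih =>
    rintro k u η y ⟨y', g1, g2, g3, rfl, g5, g6, g7⟩ f h
    have fN : ∀ f : Bool → Bool, forceN η f = f (!η) := fun f => by cases η <;> rfl
    unfold back at h ih
    dsimp only at h
    rw [fN] at h
    cases k with
    | zero => exact start_s hT h2 hb g1 g2 g3 g5 g6 (by rwa [Bool.not_not]) h
    | succ k => exact ih k (c % 4 :: u) _ _ g7 ⟨g3, by rwa [Bool.not_not]⟩ h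

end Nodes

end Pool.Agent.Lib.MP_01eced_nt
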