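import Pool.Agent.Lib.MP_568bdc_nt.ThreeSq

/-! Primitive representations by three squares of integers congruent to 2 mod 4. -/

namespace Pool.Agent.Lib.MP_01eced_nt

open Pool.Agent.Lib.MP_568bdc_nt

theorem three_sq (n : ℕ) (hn : n % 4 = 2) :
    ∃ x y z a b c : ℤ, x * x + y * y + z * z = n ∧ a * x + b * y + c * z = 1 := by
  obtain ⟨k, hk⟩ : ∃ k, n = 4 * k + 2 := ⟨n / 4, by omega⟩
  have hco : (4 * k + 1).Coprime (4 * n) := by
    apply Nat.Coprime.mul_right
    · have : Nat.Coprime (4 * k + 1) (2 ^ 2) := by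
        apply Nat.Coprime.pow_right
        rw [Nat.coprime_two_right]
        exact ⟨2 * k, by ring⟩
      exact this
    · have : n = 1 + (4 * k + 1) * 1 := by omega
      rw [this, Nat.coprime_add_mul_left_right]
      simp
  obtain ⟨p, hpgt, hp, hmod⟩ :=
    Nat.forall_exists_prime_gt_and_modEq (4 * k + 1) (q := 4 * n) (by omega) hco
  obtain ⟨j, hj⟩ : ∃ j, p = 4 * n * j + (4 * k + 1) := by
    obtain ⟨j, hj⟩ := (Nat.modEq_iff_dvd' hpgt.le).mp hmod.symm
    exact ⟨j, by omega⟩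
  have : Fact p.Prime := ⟨hp⟩
  set d : ℕ := 4 * j + 1 with hd
  have hpd : p + 1 = d * n := by rw [hj, hd, hk]; ring
  have hp4 : p % 4 = 1 := by
    rw [hj, mul_assoc]; omega
  have hpodd : Odd p := by rw [Nat.odd_iff]; omega
  have hdodd : Odd d := ⟨2 * j, by omega⟩
  have hpd' : (p + 1 : ℤ) = d * n := by exact_mod_cast hpd
  have j1 : jacobiSym (-1) d = 1 := by
    rw [jacobiSym.at_neg_one hdodd, ZMod.χ₄_nat_one_mod_four (by omega)]
  have j4 : jacobiSym p d = 1 := by
    rw [← j1]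
    apply jacobiSym.mod_left'
    have : (p : ℤ) = -1 + d * n := by linarith
    rw [this, Int.add_mul_emod_self_left]
  have j5 : jacobiSym (-(d : ℤ)) p = 1 := by
    rw [jacobiSym.neg _ hpodd, ZMod.χ₄_nat_one_mod_four hp4, one_mul,
      ← jacobiSym.quadratic_reciprocity_one_mod_four hp4 hdodd, j4]
  obtain ⟨r, hr⟩ := ZMod.isSquare_of_jacobiSym_eq_one j5
  obtain ⟨x, a, ha⟩ : ∃ x : ℤ, (p : ℤ) ∣ x * x + d := by
    refine ⟨(r.val : ℤ), ?_⟩
    rw [← ZMod.intCast_zmod_eq_zero_iff_dvd]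
    push_cast
    rw [ZMod.natCast_zmod_val, ← hr]
    push_cast
    ring
  have hd0 : (0 : ℤ) < d := by positivity
  have hp0 : (0 : ℤ) < p := by exact_mod_cast hp.pos
  have ha0 : 0 < a := by
    by_contra hneg
    have : (p : ℤ) * a ≤ 0 := mul_nonpos_of_nonneg_of_nonpos (by linarith) (not_lt.mp hneg)
    nlinarith [mul_self_nonneg x]
  have hPD : PD1 a p n x 1 0 := by
    refine ⟨fun X Y Z hz => ?_, by linear_combination (-(n : ℤ)) * ha - hpd'⟩
    have id1 : a * d * (a * X * X + p * Y * Y + n * Z * Z + 2 * x * X * Y + 2 * 1 * X * Z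
        + 2 * 0 * Y * Z) = d * ((a * X + x * Y + Z) * (a * X + x * Y + Z))
          + (d * Y - x * Z) * (d * Y - x * Z) + a * (Z * Z) := by
      linear_combination (-(d : ℤ) * Y * Y - Z * Z) * ha - a * Z * Z * hpd'
    by_contra hq
    have hq' := mul_nonpos_of_nonneg_of_nonpos (mul_pos ha0 hd0).le (not_lt.mp hq)
    rw [id1] at hq'
    have s1 := mul_nonneg hd0.le (mul_self_nonneg (a * X + x * Y + Z))
    have s2 := mul_self_nonneg (d * Y - x * Z)
    have s3 := mul_nonneg ha0.le (mul_self_nonneg Z)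
    have z0 : Z = 0 := by
      have : a * (Z * Z) = 0 := by linarith
      simpa [ha0.ne'] using this
    subst z0
    have y0 : Y = 0 := by
      have : (d * Y - x * 0) * (d * Y - x * 0) = 0 := by linarith
      simpa [hd0.ne'] using this
    subst y0
    have x0 : X = 0 := by
      have : (d : ℤ) * ((a * X + x * 0 + 0) * (a * X + x * 0 + 0)) = 0 := by linarith
      simpa [hd0.ne', ha0.ne'] using this
    exact hz ⟨x0, rfl, rfl⟩
  obtain ⟨u0, u1, u2, v0, v1, v2, w0, w1, w2, -, -, h3, -, h5, -⟩ :=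
    gram_all ((a + p + n).toNat + 1) _ _ _ _ _ _ hPD (by push_cast; omega)
  exact ⟨w0, w1, w2, u0, u1, u2, h3, h5⟩

end Pool.Agent.Lib.MP_01eced_nt
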