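import Pool.Agent.Lib.MP_01eced_nt.Pack

/-! The neighbours at a second prime. -/

namespace Pool.Agent.Lib.MP_01eced_nt

def tr (m : M) : M :=
  ((m.1.1, m.2.1.1, m.2.2.1), (m.1.2.1, m.2.1.2.1, m.2.2.2.1), (m.1.2.2, m.2.1.2.2, m.2.2.2.2))

def rs (j w : ℕ) (η : Bool) : V := (j, ss w * j - sg η * tt w, tt w * j + sg η * ss w)

def OkB (T : Tab) (b : ℕ) : Prop :=
  mm (tr (Bm T b)) (Bm T b) = (((T.p : ℤ) * T.p, 0, 0), (0, (T.p : ℤ) * T.p, 0), (0, 0, (T.p : ℤ) * T.p)) ∧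
  Cg (sc T.p (ap (Bm T b) (1, 1, 0))) ∧ Cg (sc T.p (ap (Bm T b) (3, 3, 2))) ∧
  ∀ w < 4, tb T b w ≤ T.p ∧ mm (Bm T (tb T b w)) (Sm w) = mm (Sm (tw T b w)) (Bm T b) ∧
    ∀ η : Bool, ∀ j < 3, Val (sc T.p (ap (Bm T b) (rs j w η))) (tw T b w) (xor T.fl η)

def Mz (T : Tab) (b : ℕ) (v : V) : Prop :=
  dot (Bm T b).1 v % T.p = 0 ∧ dot (Bm T b).2.1 v % T.p = 0 ∧ dot (Bm T b).2.2 v % T.p = 0

noncomputable instance (T : Tab) (b : ℕ) : Decidable (OkB T b) := by unfold OkB; infer_instance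

instance (T : Tab) (b : ℕ) (v : V) : Decidable (Mz T b v) := by unfold Mz; infer_instance

def OkT (T : Tab) : Prop :=
  T.p < 64 ∧ T.p * T.p % 12 = 1 ∧ (∀ b < T.p + 1, OkB T b) ∧
  ∀ x < T.p, ∀ y < T.p, ∀ z < T.p, (1 + x * x + y * y + z * z) % T.p = 0 →
    ∃ hi < T.p + 1, Mz T hi (x, y, z) ∧ ∃ lo < hi, Mz T lo (x, y, z)

noncomputable instance (T : Tab) : Decidable (OkT T) := by unfold OkT; infer_instance

def Mv (T : Tab) (b : ℕ) (y : V) : Prop := b ≤ T.p ∧ ∃ v, ap (Bm T b) y = sc T.p v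

lemma OkT.pos {T : Tab} (h : OkT T) : 0 < T.p := by
  rcases Nat.eq_zero_or_pos T.p with e | e
  · have := h.2.1; simp [e] at this
  · exact e

lemma OkT.two {T : Tab} (h : OkT T) {m : ℤ} (hm : IsCoprime m T.p) {v : V}
    (hv : (T.p : ℤ) ∣ m ^ 2 + dot v v) : ∃ lo hi, lo < hi ∧ Mv T lo v ∧ Mv T hi v := by
  obtain ⟨u, k, hu⟩ := hm
  obtain ⟨c, hc⟩ := hv
  have p0 : (0 : ℤ) < T.p := by exact_mod_cast h.pos
  have red : ∀ a : ℤ, ∃ x < T.p, ∃ q : ℤ, (x : ℤ) = u * a - T.p * q := fun a => by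
    obtain ⟨x, hx⟩ := Int.eq_ofNat_of_zero_le (Int.emod_nonneg (u * a) p0.ne')
    refine ⟨x, by have := Int.emod_lt_of_pos (u * a) p0; omega, u * a / T.p, ?_⟩
    rw [← hx, Int.emod_def]
  obtain ⟨x, hx, q1, e1⟩ := red v.1
  obtain ⟨y, hy, q2, e2⟩ := red v.2.1
  obtain ⟨z, hz, q3, e3⟩ := red v.2.2
  have key : ∀ b, Mz T b (x, y, z) → ∃ v', ap (Bm T b) v = sc T.p v' := by
    rintro b ⟨h1, h2, h3⟩
    have one : ∀ r : V, dot r (x, y, z) % T.p = 0 → ∃ t, dot r v = T.p * t := fun r hr => by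
      obtain ⟨t, ht⟩ := Int.dvd_of_emod_eq_zero hr
      refine ⟨m * t + dot r (m * q1 + k * v.1, m * q2 + k * v.2.1, m * q3 + k * v.2.2), ?_⟩
      simp only [dot, e1, e2, e3] at *
      linear_combination m * ht - (r.1 * v.1 + r.2.1 * v.2.1 + r.2.2 * v.2.2) * hu
    obtain ⟨t1, g1⟩ := one _ h1
    obtain ⟨t2, g2⟩ := one _ h2
    obtain ⟨t3, g3⟩ := one _ h3
    exact ⟨(t1, t2, t3), by simp only [ap, sc, g1, g2, g3]⟩
  obtain ⟨hi, h1, h2, lo, h3, h4⟩ := h.2.2.2 x hx y hy z hz (by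
    apply Nat.mod_eq_zero_of_dvd
    rw [← Int.natCast_dvd_natCast]
    refine ⟨c * u ^ 2 + 2 * k - k ^ 2 * T.p - 2 * u * (v.1 * q1 + v.2.1 * q2 + v.2.2 * q3)
      + T.p * (q1 ^ 2 + q2 ^ 2 + q3 ^ 2), ?_⟩
    push_cast
    simp only [dot] at hc
    rw [e1, e2, e3]
    linear_combination u ^ 2 * hc - (u * m - k * T.p + 1) * hu)
  exact ⟨lo, hi, h3, ⟨by omega, key _ h4⟩, by omega, key _ h2⟩

lemma res {m : M} {p q : ℤ} {v v' r g : V} (h : ap m v' = sc p v) (hp : q ∣ p * p - 1)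
    (hr : v' = (r.1 + q * g.1, r.2.1 + q * g.2.1, r.2.2 + q * g.2.2)) :
    ∃ k : V, sc p (ap m r) = (v.1 + q * k.1, v.2.1 + q * k.2.1, v.2.2 + q * k.2.2) := by
  obtain ⟨t, ht⟩ := hp
  subst hr
  refine ⟨(t * v.1 - p * dot m.1 g, t * v.2.1 - p * dot m.2.1 g, t * v.2.2 - p * dot m.2.2 g), ?_⟩
  simp only [ap, sc, dot, Prod.mk.injEq] at *
  obtain ⟨h1, h2, h3⟩ := h
  exact ⟨by linear_combination p * h1 + v.1 * ht, by linear_combination p * h2 + v.2.1 * ht,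
    by linear_combination p * h3 + v.2.2 * ht⟩

section

variable {T : Tab} (hT : OkT T) {n : ℤ} {b : ℕ} (hb : b ≤ T.p) {v v' : V}
  (h : ap (Bm T b) v' = sc T.p v)

include hT hb h

lemma OkT.rowA (a : A n v') : A n v := by
  obtain ⟨o1, o2, o3, -⟩ := hT.2.2.1 b (by omega)
  have p0 : (0 : ℤ) < T.p := by exact_mod_cast hT.pos
  have hp : (4 : ℤ) ∣ T.p * T.p - 1 := by have := hT.2.1; omega
  refine ⟨?_, ?_⟩
  · have k : dot (ap (Bm T b) v') (ap (Bm T b) v') = dot v' (ap (mm (tr (Bm T b)) (Bm T b)) v') := by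
      simp only [dot, ap, mm, cb, tr]; ring
    rw [o1, h] at k
    rw [← a.1]
    apply mul_left_cancel₀ (mul_pos p0 p0).ne'
    simp only [dot, ap, sc] at *
    linear_combination k
  · obtain ⟨a1, a2, a3⟩ := a.2
    by_cases c : v'.2.2 % 4 = 0
    · obtain ⟨k, hk⟩ := res (r := (1, 1, 0)) (g := (v'.1 / 4, v'.2.1 / 4, v'.2.2 / 4)) h hp
        (by simp only [Prod.ext_iff]; omega)
      rw [hk] at o2
      simp only [Cg] at *
      omega
    · obtain ⟨k, hk⟩ := res (r := (3, 3, 2)) (g := (v'.1 / 4, v'.2.1 / 4, v'.2.2 / 4)) h hp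
        (by simp only [Prod.ext_iff]; omega)
      rw [hk] at o3
      simp only [Cg] at *
      omega

lemma OkT.rowV {w : ℕ} {η : Bool} (a : Val v' w η) : Val v (tw T b w) (xor T.fl η) := by
  obtain ⟨-, -, -, o⟩ := hT.2.2.1 b (by omega)
  have hp : (3 : ℤ) ∣ T.p * T.p - 1 := by have := hT.2.1; omega
  obtain ⟨j, hj⟩ := Int.eq_ofNat_of_zero_le (Int.emod_nonneg v'.1 (show (3 : ℤ) ≠ 0 by norm_num))
  have o := (o w a.1).2.2 η j (by omega)
  obtain ⟨k, hk⟩ := res (r := rs j w η) (g := (v'.1 / 3, (v'.2.1 - (rs j w η).2.1) / 3,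
    (v'.2.2 - (rs j w η).2.2) / 3)) h hp (by
      obtain ⟨-, a1, a2⟩ := a
      simp only [Prod.ext_iff, rs]
      rcases ss_c w with s | s <;> rcases tt_c w with t | t <;> rcases sg_c η with e | e <;>
        simp only [s, t, e] at * <;> omega)
  rw [hk] at o
  obtain ⟨o0, o1, o2⟩ := o
  refine ⟨o0, ?_⟩
  generalize tw T b w = w' at *
  generalize xor T.fl η = η' at *
  rcases ss_c w' with s | s <;> rcases tt_c w' with t | t <;> rcases sg_c η' with e | e <;>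
    simp only [s, t, e] at * <;> omega

lemma OkT.rowS {w : ℕ} {η : Bool} (a : Val v' w η) : tb T b w ≤ T.p ∧
    ap (Bm T (tb T b w)) (mv w v') = sc T.p (mv (tw T b w) v) := by
  obtain ⟨-, -, -, o⟩ := hT.2.2.1 b (by omega)
  obtain ⟨o1, o2, -⟩ := o w a.1
  refine ⟨o1, ?_⟩
  have k := congrArg (ap · v') o2
  simp only [ap_mm, h, ap_sc, a.mv3, (hT.rowV hb h a).mv3] at k
  generalize ap (Bm T (tb T b w)) (mv w v') = y at *
  generalize mv (tw T b w) v = z at *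
  simp only [sc, Prod.ext_iff] at *
  obtain ⟨k1, k2, k3⟩ := k
  refine ⟨?_, ?_, ?_⟩ <;> linarith

end

lemma Mv.step {T : Tab} (hT : OkT T) {b w : ℕ} {y : V} {η : Bool} (h : Mv T b y) (a : Val y w η) :
    Mv T (tb T b w) (mv w y) := by
  obtain ⟨hb, v, h⟩ := h
  exact ⟨(hT.rowS hb h a).1, _, (hT.rowS hb h a).2⟩

lemma mkc_s {T : Tab} (hT : OkT T) {w a b : ℕ} {y : V} (hw : w < 4) (ha : Mv T a y) (hb : Mv T b y) :
    mkc w a b % 4 = w ∧ Mv T (mkc w a b / 4 % 64) y ∧ Mv T (mkc w a b / 256) y := by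
  have h1 := hT.1
  have h2 := ha.1
  have h3 := hb.1
  have : mkc w a b = w + 4 * (b + 64 * a) ∨ mkc w a b = w + 4 * (a + 64 * b) := by
    unfold mkc
    cases Nat.ble a b
    exacts [Or.inl rfl, Or.inr rfl]
  rcases this with e | e
  · exact ⟨by omega, by rwa [show mkc w a b / 4 % 64 = b by omega],
      by rwa [show mkc w a b / 256 = a by omega]⟩
  · exact ⟨by omega, by rwa [show mkc w a b / 4 % 64 = a by omega],
      by rwa [show mkc w a b / 256 = b by omega]⟩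

end Pool.Agent.Lib.MP_01eced_nt
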